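import Mathlib

set_option autoImplicit false

open Module Submodule Finset

namespace Pool.Agent.H99.SubDeg

open scoped Classical in
section
variable {K : Type} [Field K] [Finite K] {V : Type} [AddCommGroup V] [Module K V] [Finite V]

set_option linter.unusedSectionVars false

instance instFQ (S : Submodule K V) : Finite (V ⧸ S) := Finite.of_surjective _ (mkQ_surjective S)

noncomputable instance instFS : Fintype (Submodule K V) := Fintype.ofFinite _

/-- the points (one-dimensional subspaces) below `W` -/
noncomputable def pts (W : Submodule K V) : Finset (Submodule K V) :=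
  univ.filter (fun P => finrank K P = 1 ∧ P ≤ W)

/-- the `b`-dimensional subspaces containing `S` -/
noncomputable def above (b : ℕ) (S : Submodule K V) : Finset (Submodule K V) :=
  univ.filter (fun W => finrank K W = b ∧ S ≤ W)

lemma pts_card (W : Submodule K V) :
    (pts W).card * (Nat.card K - 1) = Nat.card K ^ finrank K W - 1 := by
  have h1 : (pts W).card = Nat.card (Projectivization K W) := by
    rw [Nat.card_congr (Projectivization.equivSubmodule K W), Nat.card_eq_fintype_card,
      Fintype.card_subtype]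
    symm
    refine Finset.card_nbij' (fun H => H.map W.subtype) (fun P => P.comap W.subtype) ?_ ?_ ?_ ?_
    · intro H hH
      simp only [pts, Finset.coe_filter, Finset.mem_univ, true_and, Set.mem_ofPred_eq] at hH ⊢
      exact ⟨by rw [finrank_map_subtype_eq]; exact hH, map_subtype_le W H⟩
    · intro P hP
      simp only [pts, Finset.coe_filter, Finset.mem_univ, true_and, Set.mem_ofPred_eq] at hP ⊢
      rw [← finrank_map_subtype_eq W (P.comap W.subtype), map_comap_subtype,
        inf_eq_right.mpr hP.2]
      exact hP.1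
    · intro H hH
      exact comap_map_eq_of_injective (injective_subtype W) H
    · intro P hP
      simp only [pts, Finset.coe_filter, Finset.mem_univ, true_and, Set.mem_ofPred_eq] at hP
      simp only [map_comap_subtype, inf_eq_right]
      exact hP.2
  rw [h1, ← Projectivization.card K W]
  congr 1
  rw [Module.natCard_eq_pow_finrank (K := K) (V := W)]

lemma finrank_comap_mkQ (S : Submodule K V) (W : Submodule K (V ⧸ S)) :
    finrank K (W.comap S.mkQ) = finrank K W + finrank K S := by
  have h1 := LinearMap.finrank_range_add_finrank_ker ((S.mkQ).domRestrict (W.comap S.mkQ))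
  have h2 : LinearMap.range ((S.mkQ).domRestrict (W.comap S.mkQ)) = W := by
    rw [LinearMap.range_domRestrict, map_comap_eq_of_surjective (mkQ_surjective S)]
  have h3 : finrank K (LinearMap.ker ((S.mkQ).domRestrict (W.comap S.mkQ))) = finrank K S := by
    rw [LinearMap.ker_domRestrict, ker_mkQ]
    rw [← finrank_map_subtype_eq (W.comap S.mkQ) (S.comap (W.comap S.mkQ).subtype),
      map_comap_subtype, inf_eq_right.mpr]
    intro x hx
    rw [mem_comap, mkQ_apply, (Quotient.mk_eq_zero S).mpr hx]
    exact W.zero_mem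
  rw [h2, h3] at h1
  omega

lemma above_card (S : Submodule K V) (b : ℕ) :
    (above (b + finrank K S) S).card
      = (univ.filter (fun W : Submodule K (V ⧸ S) => finrank K W = b)).card := by
  symm
  refine Finset.card_nbij' (fun W => W.comap S.mkQ) (fun W => W.map S.mkQ) ?_ ?_ ?_ ?_
  · intro W hW
    simp only [above, Finset.coe_filter, Finset.mem_univ, true_and, Set.mem_ofPred_eq] at hW ⊢
    refine ⟨by rw [finrank_comap_mkQ, hW], ?_⟩
    intro x hx
    rw [mem_comap, mkQ_apply, (Quotient.mk_eq_zero S).mpr hx]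
    exact W.zero_mem
  · intro W hW
    simp only [above, Finset.coe_filter, Finset.mem_univ, true_and, Set.mem_ofPred_eq] at hW ⊢
    have h := finrank_comap_mkQ S (W.map S.mkQ)
    rw [comap_map_mkQ, sup_eq_right.mpr hW.2] at h
    omega
  · intro W hW
    exact map_comap_eq_of_surjective (mkQ_surjective S) W
  · intro W hW
    simp only [above, Finset.coe_filter, Finset.mem_univ, true_and, Set.mem_ofPred_eq] at hW
    simp only [comap_map_mkQ, sup_eq_right]
    exact hW.2

/-- the number of `b`-dimensional subspaces -/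
noncomputable def cnt (K : Type) [Field K] [Finite K] (V : Type) [AddCommGroup V] [Module K V]
    [Finite V] (b : ℕ) : ℕ :=
  (univ.filter (fun W : Submodule K V => finrank K W = b)).card

lemma prod_pos' {q : ℕ} (hq : 1 < q) (b : ℕ) : 0 < ∏ j ∈ range b, (q ^ (b - j) - 1) := by
  refine Finset.prod_pos fun j hj => ?_
  have hj' := Finset.mem_range.mp hj
  have : 1 < q ^ (b - j) := Nat.one_lt_pow (by omega) hq
  omega

lemma flag_count (b : ℕ) (c : ℕ)
    (hc : ∀ P : Submodule K V, finrank K P = 1 → cnt K (V ⧸ P) b = c) :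
    cnt K V (b + 1) * (Nat.card K ^ (b + 1) - 1) = (Nat.card K ^ finrank K V - 1) * c := by
  have hq : 1 < Nat.card K := Finite.one_lt_card
  have h := Finset.sum_card_bipartiteAbove_eq_sum_card_bipartiteBelow
    (s := univ.filter (fun W : Submodule K V => finrank K W = b + 1))
    (t := pts (⊤ : Submodule K V)) (fun W P => P ≤ W)
  have h1 : ∀ W ∈ univ.filter (fun W : Submodule K V => finrank K W = b + 1),
      ((pts (⊤ : Submodule K V)).bipartiteAbove (fun W P => P ≤ W) W).card * (Nat.card K - 1)
        = Nat.card K ^ (b + 1) - 1 := by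
    intro W hW
    have hW' : finrank K W = b + 1 := by simpa using hW
    rw [← hW', ← pts_card W]
    congr 2
    ext P
    simp [Finset.bipartiteAbove, pts]
  have h2 : ∀ P ∈ pts (⊤ : Submodule K V),
      ((univ.filter (fun W : Submodule K V => finrank K W = b + 1)).bipartiteBelow
        (fun W P => P ≤ W) P).card = c := by
    intro P hP
    have hP' : finrank K P = 1 := by simpa [pts] using hP
    rw [← hc P hP', cnt, ← above_card P b, hP']
    congr 1
    ext W
    simp [Finset.bipartiteBelow, above]
  have h3 : (∑ W ∈ univ.filter (fun W : Submodule K V => finrank K W = b + 1),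
      ((pts (⊤ : Submodule K V)).bipartiteAbove (fun W P => P ≤ W) W).card) * (Nat.card K - 1)
        = cnt K V (b + 1) * (Nat.card K ^ (b + 1) - 1) := by
    rw [Finset.sum_mul, Finset.sum_congr rfl h1]
    simp [cnt]
  rw [← h3, h, Finset.sum_congr rfl h2, Finset.sum_const, smul_eq_mul, mul_right_comm,
    pts_card, finrank_top]

/-- The Gaussian binomial coefficient `[a choose b]_q`. -/
def gb (q a b : ℕ) : ℕ :=
  (∏ j ∈ range b, (q ^ (a - j) - 1)) / ∏ j ∈ range b, (q ^ (b - j) - 1)

lemma finrank_quot_point (P : Submodule K V) (hP : finrank K P = 1) :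
    finrank K (V ⧸ P) = finrank K V - 1 := by
  have := Submodule.finrank_quotient_add_finrank P
  omega

end

section
variable {K : Type} [Field K] [Finite K]

lemma cnt_mul (b : ℕ) : ∀ (V : Type) [AddCommGroup V] [Module K V] [Finite V],
    b ≤ finrank K V →
    cnt K V b * ∏ j ∈ range b, (Nat.card K ^ (b - j) - 1)
      = ∏ j ∈ range b, (Nat.card K ^ (finrank K V - j) - 1) := by
  have hq : 1 < Nat.card K := Finite.one_lt_card
  induction b with
  | zero =>
    intro V _ _ _ _
    simp only [range_zero, prod_empty, mul_one]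
    rw [cnt, Finset.card_eq_one]
    refine ⟨⊥, ?_⟩
    ext W
    simp
  | succ b ih =>
    intro V _ _ _ hb
    set a := finrank K V with ha
    have hc : ∀ P : Submodule K V, finrank K P = 1 →
        cnt K (V ⧸ P) b * ∏ j ∈ range b, (Nat.card K ^ (b - j) - 1)
          = ∏ j ∈ range b, (Nat.card K ^ (a - 1 - j) - 1) := by
      intro P hP
      have := ih (V ⧸ P) (by rw [finrank_quot_point P hP]; omega)
      rw [finrank_quot_point P hP] at this
      exact this
    have hpos := prod_pos' hq b
    have hc' : ∀ P : Submodule K V, finrank K P = 1 →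
        cnt K (V ⧸ P) b = (∏ j ∈ range b, (Nat.card K ^ (a - 1 - j) - 1)) /
          ∏ j ∈ range b, (Nat.card K ^ (b - j) - 1) := by
      intro P hP
      exact (Nat.div_eq_of_eq_mul_left hpos (hc P hP).symm).symm
    have h := flag_count b _ hc'
    obtain ⟨P, hP⟩ : ∃ P : Submodule K V, finrank K P = 1 := by
      have : 1 ≤ Module.finrank K V := by omega
      obtain ⟨v, hv⟩ : ∃ v : V, v ≠ 0 := by
        have : Nontrivial V := Module.nontrivial_of_finrank_pos (R := K) (by omega)
        exact exists_ne 0
      exact ⟨span K {v}, finrank_span_singleton hv⟩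
    have h5 := hc P hP
    rw [hc' P hP] at h5
    rw [Finset.prod_range_succ', Finset.prod_range_succ']
    have e1 : ∏ j ∈ range b, (Nat.card K ^ (b + 1 - (j + 1)) - 1)
        = ∏ j ∈ range b, (Nat.card K ^ (b - j) - 1) :=
      Finset.prod_congr rfl fun j _ => by rw [show b + 1 - (j + 1) = b - j by omega]
    have e2 : ∏ j ∈ range b, (Nat.card K ^ (a - (j + 1)) - 1)
        = ∏ j ∈ range b, (Nat.card K ^ (a - 1 - j) - 1) :=
      Finset.prod_congr rfl fun j _ => by rw [show a - (j + 1) = a - 1 - j by omega]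
    rw [e1, e2, Nat.sub_zero, Nat.sub_zero]
    rw [← h5, mul_comm (∏ j ∈ range b, (Nat.card K ^ (b - j) - 1)) (Nat.card K ^ (b + 1) - 1),
      ← mul_assoc, h]
    ring

lemma cnt_eq_gb (V : Type) [AddCommGroup V] [Module K V] [Finite V] (b : ℕ)
    (hb : b ≤ finrank K V) : cnt K V b = gb (Nat.card K) (finrank K V) b := by
  have hq : 1 < Nat.card K := Finite.one_lt_card
  exact (Nat.div_eq_of_eq_mul_left (prod_pos' hq b) (cnt_mul b V hb).symm).symm

lemma above_eq_gb {V : Type} [AddCommGroup V] [Module K V] [Finite V] (S : Submodule K V)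
    (m : ℕ) (h1 : finrank K S ≤ m) (h2 : m ≤ finrank K V) :
    (above m S).card = gb (Nat.card K) (finrank K V - finrank K S) (m - finrank K S) := by
  obtain ⟨b, rfl⟩ : ∃ b, m = b + finrank K S := ⟨m - finrank K S, by omega⟩
  have hQ := Submodule.finrank_quotient_add_finrank S
  rw [above_card S b]
  have := cnt_eq_gb (K := K) (V ⧸ S) b (by omega)
  rw [cnt] at this
  rw [this]
  congr 1 <;> omega

lemma gb_rec (a b : ℕ) (hb : b + 1 ≤ a) :
    gb (Nat.card K) a (b + 1) * (Nat.card K ^ (b + 1) - 1)
      = (Nat.card K ^ a - 1) * gb (Nat.card K) (a - 1) b := by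
  have hV : finrank K (Fin a → K) = a := by simp
  have h := flag_count (K := K) (V := Fin a → K) b (gb (Nat.card K) (a - 1) b) ?_
  · rw [cnt_eq_gb (Fin a → K) (b + 1) (by omega), hV] at h
    exact h
  · intro P hP
    have h1 : finrank K ((Fin a → K) ⧸ P) = a - 1 := by rw [finrank_quot_point P hP, hV]
    rw [cnt_eq_gb _ b (by omega), h1]

/-- numerical comparison: `[k]^2 [n-3, k-3] ≤ [n-2, k-2]` for `n ≥ 3k` -/
lemma numeric (n k p : ℕ) (hk : 3 ≤ k) (hn : 3 * k ≤ n)
    (hp : p * (Nat.card K - 1) = Nat.card K ^ k - 1) :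
    p * (p * gb (Nat.card K) (n - 3) (k - 3)) ≤ gb (Nat.card K) (n - 2) (k - 2) := by
  have hq : 1 < Nat.card K := Finite.one_lt_card
  set q := Nat.card K with hqdef
  have h := gb_rec (K := K) (n - 2) (k - 3) (by omega)
  rw [show k - 3 + 1 = k - 2 by omega, show n - 2 - 1 = n - 3 by omega, ← hqdef] at h
  have hpos : 0 < q ^ (k - 2) - 1 := by
    have : 1 < q ^ (k - 2) := Nat.one_lt_pow (by omega) hq
    omega
  refine Nat.le_of_mul_le_mul_right ?_ hpos
  rw [h]
  have hpk : p ≤ q ^ k := by
    have h1 : p * 1 ≤ p * (q - 1) := Nat.mul_le_mul_left p (by omega)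
    omega
  have h3 : p * p * (q ^ (k - 2) - 1) ≤ q ^ (n - 2) - 1 := by
    have h4 : p * p * (q ^ (k - 2) - 1) ≤ q ^ k * q ^ k * (q ^ (k - 2) - 1) :=
      Nat.mul_le_mul_right _ (Nat.mul_le_mul hpk hpk)
    have h5 : q ^ k * q ^ k * (q ^ (k - 2) - 1) = q ^ (3 * k - 2) - q ^ k * q ^ k := by
      rw [Nat.mul_sub, mul_one, ← pow_add, ← pow_add]
      congr 2
      omega
    have h6 : q ^ (3 * k - 2) ≤ q ^ (n - 2) := Nat.pow_le_pow_right (by omega) (by omega)
    have h7 : 1 ≤ q ^ k * q ^ k := Nat.one_le_iff_ne_zero.mpr (by positivity)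
    omega
  calc p * (p * gb q (n - 3) (k - 3)) * (q ^ (k - 2) - 1)
      = (p * p * (q ^ (k - 2) - 1)) * gb q (n - 3) (k - 3) := by ring
    _ ≤ (q ^ (n - 2) - 1) * gb q (n - 3) (k - 3) := Nat.mul_le_mul_right _ h3

end

set_option linter.unusedSectionVars false

open scoped Classical in
section
variable {K : Type} [Field K] [Finite K] {V : Type} [AddCommGroup V] [Module K V] [Finite V]

lemma exists_pt (A : Submodule K V) (hA : A ≠ ⊥) : ∃ P : Submodule K V, finrank K P = 1 ∧ P ≤ A := by
  obtain ⟨v, hv, hv0⟩ := exists_mem_ne_zero_of_ne_bot hA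
  exact ⟨span K {v}, finrank_span_singleton hv0, (span_singleton_le_iff_mem v A).mpr hv⟩

lemma point_ne_bot {P : Submodule K V} (hP : finrank K P = 1) : P ≠ ⊥ := by
  rintro rfl
  simp at hP

/-- two distinct points span a line; more generally adding a point outside. -/
lemma finrank_sup_point (S P : Submodule K V) (hP : finrank K P = 1) (h : ¬ P ≤ S) :
    finrank K (S ⊔ P : Submodule K V) = finrank K S + 1 := by
  have h1 := Submodule.finrank_sup_add_finrank_inf_eq S P
  have h2 : finrank K (S ⊓ P : Submodule K V) = 0 := by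
    by_contra h0
    apply h
    have h3 : S ⊓ P = P := eq_of_le_of_finrank_le inf_le_right (by omega)
    exact inf_eq_right.mp h3
  omega

lemma point_eq {P Q : Submodule K V} (hP : finrank K P = 1) (hQ : finrank K Q = 1) (h : P ≤ Q) :
    P = Q := eq_of_le_of_finrank_eq h (by omega)

lemma exists_between' (m : ℕ) : ∀ (A B : Submodule K V), A ≤ B → finrank K A + m ≤ finrank K B →
    ∃ C : Submodule K V, A ≤ C ∧ C ≤ B ∧ finrank K C = finrank K A + m := by
  induction m with
  | zero => intro A B h _; exact ⟨A, le_rfl, h, rfl⟩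
  | succ m ih =>
    intro A B h hm
    have hne : A ≠ B := by rintro rfl; omega
    obtain ⟨v, hvB, hvA⟩ := SetLike.exists_of_lt (lt_of_le_of_ne h hne)
    have hv0 : v ≠ 0 := by rintro rfl; exact hvA A.zero_mem
    have h1 : finrank K (A ⊔ span K {v} : Submodule K V) = finrank K A + 1 :=
      finrank_sup_point A _ (finrank_span_singleton hv0)
        (fun hh => hvA ((span_singleton_le_iff_mem v A).mp hh))
    obtain ⟨C, h2, h3, h4⟩ := ih (A ⊔ span K {v}) B
      (sup_le h ((span_singleton_le_iff_mem v B).mpr hvB)) (by omega)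
    exact ⟨C, le_sup_left.trans h2, h3, by omega⟩

/-- the degree of a subspace in a family -/
noncomputable def deg (F : Finset (Submodule K V)) (S : Submodule K V) : ℕ :=
  (F.filter (fun A => S ≤ A)).card

lemma deg_le (F : Finset (Submodule K V)) (k : ℕ) (hF : ∀ A ∈ F, finrank K A = k)
    (S : Submodule K V) (h1 : finrank K S ≤ k) (h2 : k ≤ finrank K V) :
    deg F S ≤ gb (Nat.card K) (finrank K V - finrank K S) (k - finrank K S) := by
  rw [← above_eq_gb S k h1 h2, deg]
  refine Finset.card_le_card fun A hA => ?_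
  simp only [Finset.mem_filter, above, Finset.mem_univ, true_and] at hA ⊢
  exact ⟨hF A hA.1, hA.2⟩

lemma branching (F : Finset (Submodule K V)) (S G : Submodule K V) (hG : ∀ A ∈ F, A ⊓ G ≠ ⊥)
    (m : ℕ) (h : ∀ Q ∈ pts G, deg F (S ⊔ Q) ≤ m) : deg F S ≤ (pts G).card * m := by
  have h1 : F.filter (fun A => S ≤ A)
      ⊆ (pts G).biUnion (fun Q => F.filter (fun A => S ⊔ Q ≤ A)) := by
    intro A hA
    simp only [Finset.mem_filter] at hA
    obtain ⟨Q, hQ1, hQ2⟩ := exists_pt (A ⊓ G) (hG A hA.1)
    simp only [Finset.mem_biUnion, Finset.mem_filter, pts, Finset.mem_univ, true_and]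
    exact ⟨Q, ⟨hQ1, hQ2.trans inf_le_right⟩, hA.1, sup_le hA.2 (hQ2.trans inf_le_left)⟩
  exact (Finset.card_le_card h1).trans (Finset.card_biUnion_le_card_mul _ _ _ h)

end
end Pool.Agent.H99.SubDeg
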