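import Pool.Agent.H99.SubNeg

set_option autoImplicit false

open Module Submodule Finset

namespace Pool.Agent.H99.SubDeg

/-- The range: `n ≥ 2k + 2`, or `q ≥ 3` and `n ≥ 2k + 1`. -/
def InRange2 (q n k : ℕ) : Prop := 2 * k + 2 ≤ n ∨ (3 ≤ q ∧ 2 * k + 1 ≤ n)

lemma InRange2.le {q n k : ℕ} (h : InRange2 q n k) : 2 * k + 1 ≤ n := by
  rcases h with h | h
  · omega
  · exact h.2

/-- `s p ≤ q^(n-k)` with `s = 4` for `q = 2` and `s = q (q-1)` for `q ≥ 3`. -/
lemma key_num (q n k p : ℕ) (hq : 1 < q) (hr : InRange2 q n k)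
    (hp : p * (q - 1) = q ^ k - 1) :
    (q = 2 ∧ 4 * p ≤ q ^ (n - k)) ∨ (3 ≤ q ∧ (q * (q - 1)) * p ≤ q ^ (n - k)) := by
  have hp' : p * (q - 1) ≤ q ^ k := by omega
  rcases Nat.lt_or_ge q 3 with h3 | h3
  · left
    have h2 : q = 2 := by omega
    refine ⟨h2, ?_⟩
    subst h2
    have hn : 2 * k + 2 ≤ n := by
      rcases hr with h | h
      · exact h
      · omega
    have h4 : 2 ^ (k + 2) ≤ 2 ^ (n - k) := Nat.pow_le_pow_right (by omega) (by omega)
    have h5 : 2 ^ (k + 2) = 4 * 2 ^ k := by rw [pow_add]; ring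
    omega
  · right
    refine ⟨h3, ?_⟩
    have hn := hr.le
    have h4 : q ^ (k + 1) ≤ q ^ (n - k) := Nat.pow_le_pow_right (by omega) (by omega)
    calc (q * (q - 1)) * p = q * (p * (q - 1)) := by ring
      _ ≤ q * q ^ k := Nat.mul_le_mul_left _ hp'
      _ = q ^ (k + 1) := by rw [pow_succ]; ring
      _ ≤ _ := h4

lemma numeric_two2 (q n k p t : ℕ) (hq : 1 < q) (hr : InRange2 q n k)
    (hp : p * (q - 1) = q ^ k - 1) (ht : t * (q - 1) = q ^ 2 - 1) :
    t * p ≤ q ^ (n - k) := by
  have htq : t = q + 1 := by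
    obtain ⟨m, rfl⟩ : ∃ m, q = m + 1 := ⟨q - 1, by omega⟩
    have h1 : (m + 1) ^ 2 - 1 = (m + 2) * m := by
      have : (m + 1) ^ 2 = (m + 2) * m + 1 := by ring
      omega
    rw [h1, Nat.add_sub_cancel] at ht
    exact Nat.eq_of_mul_eq_mul_right (by omega) ht
  rcases key_num q n k p hq hr hp with ⟨h2, h⟩ | ⟨h3, h⟩
  · subst h2
    subst htq
    calc (2 + 1) * p ≤ 4 * p := Nat.mul_le_mul_right _ (by omega)
      _ ≤ _ := h
  · refine le_trans (Nat.mul_le_mul_right p ?_) h
    rw [htq]
    obtain ⟨m, rfl⟩ : ∃ m, q = m + 3 := ⟨q - 3, by omega⟩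
    have : m + 3 - 1 = m + 2 := by omega
    rw [this]
    nlinarith

lemma numeric_pow2 (q n k j p t : ℕ) (hq : 1 < q) (hr : InRange2 q n k) (hj : 3 ≤ j)
    (hp : p * (q - 1) = q ^ k - 1) (ht : t * (q - 1) = q ^ (j + 2) - 1) :
    t * p ^ j ≤ q ^ ((n - k) * j) := by
  have ht' : t * (q - 1) ≤ q ^ (j + 2) := by omega
  rw [pow_mul]
  rcases key_num q n k p hq hr hp with ⟨h2, h⟩ | ⟨h3, h⟩
  · subst h2
    have h1 : t ≤ 4 ^ j := by
      have h4 : (2 : ℕ) ^ (j + 2) ≤ 2 ^ (2 * j) := Nat.pow_le_pow_right (by omega) (by omega)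
      have h5 : (2 : ℕ) ^ (2 * j) = 4 ^ j := by rw [pow_mul]; norm_num
      have h6 : t * (2 - 1) = t := by simp
      omega
    calc t * p ^ j ≤ 4 ^ j * p ^ j := Nat.mul_le_mul_right _ h1
      _ = (4 * p) ^ j := by rw [mul_pow]
      _ ≤ _ := Nat.pow_le_pow_left h j
  · have h1 : t ≤ (q * (q - 1)) ^ j := by
      have hpos : 0 < q - 1 := by omega
      refine Nat.le_of_mul_le_mul_right ?_ hpos
      have h5 : q ≤ (q - 1) ^ 2 := by
        obtain ⟨m, rfl⟩ : ∃ m, q = m + 3 := ⟨q - 3, by omega⟩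
        have : m + 3 - 1 = m + 2 := by omega
        rw [this]
        nlinarith
      have h6 : q ^ 2 ≤ (q - 1) ^ (j + 1) := by
        calc q ^ 2 ≤ ((q - 1) ^ 2) ^ 2 := Nat.pow_le_pow_left h5 2
          _ = (q - 1) ^ 4 := by rw [← pow_mul]
          _ ≤ (q - 1) ^ (j + 1) := Nat.pow_le_pow_right hpos (by omega)
      calc t * (q - 1) ≤ q ^ (j + 2) := ht'
        _ = q ^ j * q ^ 2 := by rw [pow_add]
        _ ≤ q ^ j * (q - 1) ^ (j + 1) := Nat.mul_le_mul_left _ h6
        _ = (q * (q - 1)) ^ j * (q - 1) := by rw [mul_pow, pow_succ]; ring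
    calc t * p ^ j ≤ (q * (q - 1)) ^ j * p ^ j := Nat.mul_le_mul_right _ h1
      _ = ((q * (q - 1)) * p) ^ j := (mul_pow _ _ _).symm
      _ ≤ _ := Nat.pow_le_pow_left h j

/-- the numerical inequalities for `τ = 3` -/
lemma num3 (q n k p t : ℕ) (hq : 1 < q) (hk : 7 ≤ k) (hr : InRange2 q n k)
    (hp : p * (q - 1) = q ^ k - 1) (ht : t * (q - 1) = q ^ 3 - 1) :
    16 * (p + t * t) ≤ 7 * q ^ (n - k) ∧ 16 * (t * p ^ 2) ≤ 7 * (q ^ (n - k)) ^ 2 := by
  have htq : t = q ^ 2 + q + 1 := by
    obtain ⟨m, rfl⟩ : ∃ m, q = m + 1 := ⟨q - 1, by omega⟩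
    have h1 : (m + 1) ^ 3 - 1 = ((m + 1) ^ 2 + (m + 1) + 1) * m := by
      have : (m + 1) ^ 3 = ((m + 1) ^ 2 + (m + 1) + 1) * m + 1 := by ring
      omega
    rw [h1, Nat.add_sub_cancel] at ht
    exact Nat.eq_of_mul_eq_mul_right (by omega) ht
  have hn := hr.le
  have hQ : q ^ 8 ≤ q ^ (n - k) := Nat.pow_le_pow_right (by omega) (by omega)
  rcases key_num q n k p hq hr hp with ⟨h2, h⟩ | ⟨h3, h⟩
  · subst h2
    have hn2 : 2 * k + 2 ≤ n := by
      rcases hr with h | h
      · exact h
      · omega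
    have hQ' : 2 ^ 9 ≤ 2 ^ (n - k) := Nat.pow_le_pow_right (by omega) (by omega)
    set Q := 2 ^ (n - k) with hQd
    have ht7 : t = 7 := by rw [htq]; norm_num
    subst ht7
    norm_num at hQ'
    refine ⟨by omega, ?_⟩
    have := Nat.pow_le_pow_left h 2
    have h5 : (4 * p) ^ 2 = 16 * p ^ 2 := by ring
    omega
  · set Q := q ^ (n - k) with hQd
    obtain ⟨m, rfl⟩ : ∃ m, q = m + 3 := ⟨q - 3, by omega⟩
    have hm : m + 3 - 1 = m + 2 := by omega
    rw [hm] at h
    have h6 : 6 * p ≤ Q := by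
      refine le_trans (Nat.mul_le_mul_right p ?_) h
      nlinarith
    have ht2 : t ≤ 2 * (m + 3) ^ 2 := by rw [htq]; nlinarith
    refine ⟨?_, ?_⟩
    · have h7 : t * t ≤ (2 * (m + 3) ^ 2) * (2 * (m + 3) ^ 2) := Nat.mul_le_mul ht2 ht2
      have h8 : 48 * ((2 * (m + 3) ^ 2) * (2 * (m + 3) ^ 2)) ≤ 13 * (m + 3) ^ 8 := by
        have e1 : 48 * ((2 * (m + 3) ^ 2) * (2 * (m + 3) ^ 2)) = 192 * (m + 3) ^ 4 := by ring
        have e2 : 13 * (m + 3) ^ 8 = (13 * (m + 3) ^ 4) * (m + 3) ^ 4 := by ring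
        rw [e1, e2]
        refine Nat.mul_le_mul_right _ ?_
        have : 3 ^ 4 ≤ (m + 3) ^ 4 := Nat.pow_le_pow_left (by omega) 4
        omega
      have h9 : 48 * (t * t) ≤ 13 * Q := by
        calc 48 * (t * t) ≤ 48 * ((2 * (m + 3) ^ 2) * (2 * (m + 3) ^ 2)) :=
              Nat.mul_le_mul_left _ h7
          _ ≤ 13 * (m + 3) ^ 8 := h8
          _ ≤ 13 * Q := Nat.mul_le_mul_left _ hQ
      omega
    · have h10 : 16 * t ≤ 7 * ((m + 3) * (m + 2)) ^ 2 := by
        rw [htq]
        have : 7 * ((m + 3) * (m + 2)) ^ 2 = 7 * ((m + 3) ^ 2 * (m + 2) ^ 2) := by ring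
        nlinarith [Nat.zero_le (m ^ 4), Nat.zero_le (m ^ 3), Nat.zero_le (m ^ 2)]
      calc 16 * (t * p ^ 2) = (16 * t) * p ^ 2 := by ring
        _ ≤ (7 * ((m + 3) * (m + 2)) ^ 2) * p ^ 2 := Nat.mul_le_mul_right _ h10
        _ = 7 * ((m + 3) * (m + 2) * p) ^ 2 := by ring
        _ ≤ 7 * Q ^ 2 := Nat.mul_le_mul_left _ (Nat.pow_le_pow_left h 2)

/-- the numerical inequalities for `τ = 4` -/
lemma num4 (q n k p t : ℕ) (hq : 1 < q) (hk : 7 ≤ k) (hr : InRange2 q n k)
    (hp : p * (q - 1) = q ^ k - 1) (ht : t * (q - 1) = q ^ 4 - 1) :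
    16 * (p ^ 2 + t * (t * p)) ≤ 7 * (q ^ (n - k)) ^ 2 ∧
      16 * (t * p ^ 3) ≤ 7 * (q ^ (n - k)) ^ 3 := by
  have htq : t = q ^ 3 + q ^ 2 + q + 1 := by
    obtain ⟨m, rfl⟩ : ∃ m, q = m + 1 := ⟨q - 1, by omega⟩
    have h1 : (m + 1) ^ 4 - 1 = ((m + 1) ^ 3 + (m + 1) ^ 2 + (m + 1) + 1) * m := by
      have : (m + 1) ^ 4 = ((m + 1) ^ 3 + (m + 1) ^ 2 + (m + 1) + 1) * m + 1 := by ring
      omega
    rw [h1, Nat.add_sub_cancel] at ht
    exact Nat.eq_of_mul_eq_mul_right (by omega) ht
  have hn := hr.le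
  have hQ : q ^ 8 ≤ q ^ (n - k) := Nat.pow_le_pow_right (by omega) (by omega)
  rcases key_num q n k p hq hr hp with ⟨h2, h⟩ | ⟨h3, h⟩
  · subst h2
    have hQ' : 2 ^ 8 ≤ 2 ^ (n - k) := hQ
    set Q := 2 ^ (n - k) with hQd
    have ht15 : t = 15 := by rw [htq]; norm_num
    subst ht15
    norm_num at hQ'
    have a2 := Nat.pow_le_pow_left h 2
    have a3 := Nat.pow_le_pow_left h 3
    have e2 : (4 * p) ^ 2 = 16 * p ^ 2 := by ring
    have e3 : (4 * p) ^ 3 = 64 * p ^ 3 := by ring
    rw [e2] at a2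
    rw [e3] at a3
    refine ⟨?_, by omega⟩
    have b1 : 900 * (4 * p) ≤ 900 * Q := Nat.mul_le_mul_left _ h
    have b2 : 900 * Q ≤ 6 * Q ^ 2 := by rw [pow_two]; nlinarith
    have e4 : 16 * (p ^ 2 + 15 * (15 * p)) = 16 * p ^ 2 + 900 * (4 * p) := by ring
    rw [e4]
    omega
  · set Q := q ^ (n - k) with hQd
    obtain ⟨m, rfl⟩ : ∃ m, q = m + 3 := ⟨q - 3, by omega⟩
    have hm : m + 3 - 1 = m + 2 := by omega
    rw [hm] at h
    have h6 : 6 * p ≤ Q := by
      refine le_trans (Nat.mul_le_mul_right p ?_) h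
      nlinarith
    have ht2 : t ≤ 2 * (m + 3) ^ 3 := by
      rw [htq]
      nlinarith [Nat.zero_le (m ^ 3), Nat.zero_le (m ^ 2)]
    refine ⟨?_, ?_⟩
    · -- 36 p^2 ≤ Q^2 and t*t*p
      have h36 : 36 * p ^ 2 ≤ Q ^ 2 := by
        have := Nat.pow_le_pow_left h6 2
        have e : (6 * p) ^ 2 = 36 * p ^ 2 := by ring
        omega
      have h7 : t * t ≤ (2 * (m + 3) ^ 3) * (2 * (m + 3) ^ 3) := Nat.mul_le_mul ht2 ht2
      have h8 : 9 * (t * t) ≤ 4 * Q := by
        have e1 : 9 * ((2 * (m + 3) ^ 3) * (2 * (m + 3) ^ 3)) = 36 * (m + 3) ^ 6 := by ring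
        have e2 : 4 * (m + 3) ^ 8 = (4 * (m + 3) ^ 2) * (m + 3) ^ 6 := by ring
        have e3 : 36 ≤ 4 * (m + 3) ^ 2 := by nlinarith
        calc 9 * (t * t) ≤ 9 * ((2 * (m + 3) ^ 3) * (2 * (m + 3) ^ 3)) :=
              Nat.mul_le_mul_left _ h7
          _ = 36 * (m + 3) ^ 6 := e1
          _ ≤ (4 * (m + 3) ^ 2) * (m + 3) ^ 6 := Nat.mul_le_mul_right _ e3
          _ = 4 * (m + 3) ^ 8 := e2.symm
          _ ≤ 4 * Q := Nat.mul_le_mul_left _ hQ
      have h9 : (9 * (t * t)) * (6 * p) ≤ (4 * Q) * Q := Nat.mul_le_mul h8 h6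
      have e5 : (9 * (t * t)) * (6 * p) = 54 * (t * (t * p)) := by ring
      have e6 : (4 * Q) * Q = 4 * Q ^ 2 := by ring
      rw [e5, e6] at h9
      omega
    · have h10 : 16 * t ≤ 7 * ((m + 3) * (m + 2)) ^ 3 := by
        have e1 : 7 * ((m + 3) * (m + 2)) ^ 3 = (7 * (m + 2) ^ 3) * (m + 3) ^ 3 := by ring
        have e2 : 32 ≤ 7 * (m + 2) ^ 3 := by
          have : 2 ^ 3 ≤ (m + 2) ^ 3 := Nat.pow_le_pow_left (by omega) 3
          omega
        calc 16 * t ≤ 16 * (2 * (m + 3) ^ 3) := Nat.mul_le_mul_left _ ht2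
          _ = 32 * (m + 3) ^ 3 := by ring
          _ ≤ (7 * (m + 2) ^ 3) * (m + 3) ^ 3 := Nat.mul_le_mul_right _ e2
          _ = _ := e1.symm
      calc 16 * (t * p ^ 3) = (16 * t) * p ^ 3 := by ring
        _ ≤ (7 * ((m + 3) * (m + 2)) ^ 3) * p ^ 3 := Nat.mul_le_mul_right _ h10
        _ = 7 * ((m + 3) * (m + 2) * p) ^ 3 := by ring
        _ ≤ 7 * Q ^ 3 := Nat.mul_le_mul_left _ (Nat.pow_le_pow_left h 3)

set_option linter.unusedSectionVars false

open scoped Classical in
section
variable {K : Type} [Field K] [Finite K] {V : Type} [AddCommGroup V] [Module K V] [Finite V]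

/-- iterated branching for a family `T` all of whose members meet all members of `F` -/
lemma iterate2 (T F : Finset (Submodule K V)) (τ p m0 : ℕ)
    (hp : ∀ A ∈ F, (pts A).card = p)
    (hmin : ∀ S : Submodule K V, finrank K S < τ → ¬ Transv F S)
    (hmeet : ∀ A ∈ T, ∀ G ∈ F, A ⊓ G ≠ ⊥) (S0 : Submodule K V)
    (hend : ∀ S : Submodule K V, S0 ≤ S → finrank K S = τ → deg T S ≤ m0)
    (j : ℕ) : ∀ S : Submodule K V, S0 ≤ S → finrank K S + j = τ → deg T S ≤ p ^ j * m0 := by
  induction j with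
  | zero =>
    intro S hS0 hS
    simpa using hend S hS0 (by omega)
  | succ j ih =>
    intro S hS0 hS
    have h1 := hmin S (by omega)
    unfold Transv at h1
    push Not at h1
    obtain ⟨A, hA, hAS⟩ := h1
    have h2 := branching T S A (fun B hB => hmeet B hB A hA) (p ^ j * m0) ?_
    · rw [hp A hA] at h2
      calc deg T S ≤ p * (p ^ j * m0) := h2
        _ = p ^ (j + 1) * m0 := by rw [pow_succ]; ring
    · intro Q hQ
      simp only [pts, Finset.mem_filter, Finset.mem_univ, true_and] at hQ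
      apply ih _ (hS0.trans le_sup_left)
      rw [finrank_sup_point S Q hQ.1]
      · omega
      · intro h
        have : Q ≤ A ⊓ S := le_inf hQ.2 h
        rw [hAS, le_bot_iff] at this
        exact point_ne_bot hQ.1 this

/-- transversals of dimension at most `k` of a maximal family meet -/
lemma transv_meet (k : ℕ) (F : Finset (Submodule K V)) (hk : 1 ≤ k) (hn : 2 * k ≤ finrank K V)
    (hF : Maximal (Inter k) F) (L L' : Submodule K V) (hL : finrank K L ≤ k)
    (hL' : finrank K L' ≤ k) (hLt : Transv F L) (hLt' : Transv F L') : L ⊓ L' ≠ ⊥ := by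
  obtain ⟨⟨hFk, hint⟩, hmaxi⟩ := hF
  intro h0
  have hmem : ∀ (M A : Submodule K V), Transv F M → M ≤ A → finrank K A = k → A ∈ F := by
    intro M A hM hMA hA
    have h1 : Inter k (insert A F) := by
      refine ⟨?_, ?_⟩
      · intro B hB
        rcases Finset.mem_insert.mp hB with hBA | hBF
        · rw [hBA]; exact hA
        · exact hFk B hBF
      · have h2 : ∀ B ∈ F, B ⊓ A ≠ ⊥ := fun B hB h =>
          hM B hB (le_bot_iff.mp (h ▸ inf_le_inf_left B hMA))
        intro B hB C hC
        rcases Finset.mem_insert.mp hB with hBA | hBF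
        · rcases Finset.mem_insert.mp hC with hCA | hCF
          · rw [hBA, hCA, inf_idem]
            intro hbot
            rw [hbot, finrank_bot] at hA
            omega
          · rw [inf_comm, hBA]
            exact h2 C hCF
        · rcases Finset.mem_insert.mp hC with hCA | hCF
          · rw [hCA]
            exact h2 B hBF
          · exact hint B hBF C hCF
    exact hmaxi h1 (Finset.subset_insert A F) (Finset.mem_insert_self A F)
  obtain ⟨A, hLA, hAk, hAL'⟩ := exists_ext (k - finrank K L) L L' h0 (by omega)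
  obtain ⟨B, hLB, hBk, hBA⟩ := exists_ext (k - finrank K L') L' A (by rw [inf_comm]; exact hAL')
    (by omega)
  have hA := hmem L A hLt hLA (by omega)
  have hB := hmem L' B hLt' hLB (by omega)
  exact hint B hB A hA hBA

/-- The cases `τ = 3` and `τ = 4`. -/
lemma fine (k : ℕ) (F : Finset (Submodule K V)) (hk : 7 ≤ k)
    (hr : InRange2 (Nat.card K) (finrank K V) k) (hF : Maximal (Inter k) F)
    (τ p : ℕ) (T : Submodule K V) (hτ3 : 3 ≤ τ) (hτ4 : τ ≤ 4) (hT : finrank K T = τ)
    (hTt : Transv F T) (hmin : ∀ S : Submodule K V, finrank K S < τ → ¬ Transv F S)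
    (hpA : ∀ A ∈ F, (pts A).card = p)
    (hpk : p * (Nat.card K - 1) = Nat.card K ^ k - 1) :
    ∃ W : Submodule K V, finrank K W ≤ k + 1 ∧ high k F ⊆ pts W := by
  have hq1 : 1 < Nat.card K := Finite.one_lt_card
  have hFk := hF.1.1
  have hint := hF.1.2
  have hn2 := hr.le
  set n := finrank K V with hn
  set q := Nat.card K with hq
  set t := (pts T).card with ht
  have htq : t * (q - 1) = q ^ τ - 1 := by rw [ht, pts_card, hT]
  set TT : Finset (Submodule K V) := univ.filter (fun S => finrank K S = τ ∧ Transv F S) with hTT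
  have hTTm : ∀ S, S ∈ TT ↔ finrank K S = τ ∧ Transv F S := by intro S; simp [hTT]
  have hTTF : ∀ A ∈ TT, ∀ G ∈ F, A ⊓ G ≠ ⊥ := by
    intro A hA G hG
    rw [inf_comm]
    exact ((hTTm A).mp hA).2 G hG
  have hTTT : ∀ A ∈ TT, ∀ B ∈ TT, A ⊓ B ≠ ⊥ := by
    intro A hA B hB
    obtain ⟨h1, h2⟩ := (hTTm A).mp hA
    obtain ⟨h3, h4⟩ := (hTTm B).mp hB
    exact transv_meet k F (by omega) (by omega) hF A B (by omega) (by omega) h2 h4
  have hTmem : T ∈ TT := (hTTm T).mpr ⟨hT, hTt⟩
  have hptsle : ∀ G : Submodule K V, finrank K G ≤ τ → (pts G).card ≤ t := by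
    intro G hG
    have h1 : (pts G).card * (q - 1) = q ^ finrank K G - 1 := pts_card G
    have h2 : q ^ finrank K G ≤ q ^ τ := Nat.pow_le_pow_right (by omega) hG
    refine Nat.le_of_mul_le_mul_right (c := q - 1) ?_ (by omega)
    rw [htq, h1]
    exact Nat.sub_le_sub_right h2 1
  have hone : ∀ S : Submodule K V, (⊥ : Submodule K V) ≤ S → finrank K S = τ → deg TT S ≤ 1 := by
    intro S _ hS
    rw [deg, Finset.card_le_one]
    intro A hA B hB
    simp only [Finset.mem_filter] at hA hB
    have h1 := ((hTTm A).mp hA.1).1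
    have h2 := ((hTTm B).mp hB.1).1
    rw [← eq_of_le_of_finrank_eq hA.2 (by omega), ← eq_of_le_of_finrank_eq hB.2 (by omega)]
  have hline : ∀ L : Submodule K V, finrank K L = 2 → deg TT L ≤ p ^ (τ - 2) := by
    intro L hL
    have := iterate2 TT F τ p 1 hpA hmin hTTF ⊥ hone (τ - 2) L bot_le (by omega)
    simpa using this
  have hplane : ∀ L : Submodule K V, finrank K L = 3 → deg TT L ≤ p ^ (τ - 3) := by
    intro L hL
    have := iterate2 TT F τ p 1 hpA hmin hTTF ⊥ hone (τ - 3) L bot_le (by omega)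
    simpa using this
  -- a popular line meets everything that meets all members of `TT`
  have hpop : ∀ L G : Submodule K V, finrank K L = 2 → t * p ^ (τ - 3) < deg TT L →
      finrank K G ≤ τ → (∀ A ∈ TT, A ⊓ G ≠ ⊥) → L ⊓ G ≠ ⊥ := by
    intro L G hL hLp hG hGA h0
    have h1 := branching TT L G hGA (p ^ (τ - 3)) ?_
    · have h2 := Nat.mul_le_mul_right (p ^ (τ - 3)) (hptsle G hG)
      omega
    · intro Q hQ
      simp only [pts, Finset.mem_filter, Finset.mem_univ, true_and] at hQ
      apply hplane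
      rw [finrank_sup_point L Q hQ.1, hL]
      intro h
      have : Q ≤ L ⊓ G := le_inf h hQ.2
      rw [h0, le_bot_iff] at this
      exact point_ne_bot hQ.1 this
  have hpop1 : ∀ L : Submodule K V, finrank K L = 2 → t * p ^ (τ - 3) < deg TT L →
      ∀ A ∈ TT, A ⊓ L ≠ ⊥ := by
    intro L hL hLp A hA
    rw [inf_comm]
    exact hpop L A hL hLp (by rw [((hTTm A).mp hA).1]) (fun B hB => hTTT B hB A hA)
  have hpop2 : ∀ L : Submodule K V, (finrank K L = 2 ∧ t * p ^ (τ - 3) < deg TT L) →
      ∀ L' : Submodule K V, (finrank K L' = 2 ∧ t * p ^ (τ - 3) < deg TT L') → L ⊓ L' ≠ ⊥ := by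
    intro L hL L' hL'
    exact hpop L L' hL.1 hL.2 (by omega) (hpop1 L' hL'.1 hL'.2)
  -- points outside some member of `TT`, with all popular lines equal to `L0`, are not high
  have hnothigh : ∀ (P L0 S1 : Submodule K V), finrank K P = 1 → S1 ∈ TT → ¬ P ≤ S1 →
      (∀ L : Submodule K V, finrank K L = 2 → t * p ^ (τ - 3) < deg TT L → P ≤ L → L = L0) →
      deg F P ≤ gb q (n - 2) (k - 2) := by
    intro P L0 S1 hP hS1 hPS1 hL0
    obtain ⟨hS1d, hS1t⟩ := (hTTm S1).mp hS1
    have hS1c : (pts S1).card ≤ t := hptsle S1 (by omega)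
    have hPQ : ∀ Q ∈ pts S1, finrank K (P ⊔ Q : Submodule K V) = 2 := by
      intro Q hQ
      simp only [pts, Finset.mem_filter, Finset.mem_univ, true_and] at hQ
      rw [finrank_sup_point P Q hQ.1, hP]
      intro h
      exact hPS1 (point_eq hQ.1 hP h ▸ hQ.2)
    -- number of members of `TT` through `P`
    have hm : deg TT P ≤ p ^ (τ - 2) + t * (t * p ^ (τ - 3)) := by
      set T' : Finset (Submodule K V) := TT.filter (fun A => ¬ L0 ≤ A) with hT'
      have h1 := branching T' P S1 (fun A hA => hTTT A (Finset.mem_filter.mp hA).1 S1 hS1)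
        (t * p ^ (τ - 3)) (fun Q hQ => by
          have hd := hPQ Q hQ
          by_cases hlt : t * p ^ (τ - 3) < deg TT (P ⊔ Q)
          · have hE := hL0 (P ⊔ Q) hd hlt le_sup_left
            have : deg T' (P ⊔ Q) = 0 := by
              rw [deg, Finset.card_eq_zero, Finset.eq_empty_iff_forall_notMem]
              intro A hA
              simp only [hT', Finset.mem_filter] at hA
              exact hA.1.2 (hE ▸ hA.2)
            rw [this]
            exact Nat.zero_le _
          · push Not at hlt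
            refine le_trans (Finset.card_le_card ?_) hlt
            exact Finset.filter_subset_filter _ (Finset.filter_subset _ _))
      have h2 : deg T' P ≤ t * (t * p ^ (τ - 3)) := h1.trans (Nat.mul_le_mul_right _ hS1c)
      by_cases hex : finrank K L0 = 2
      · have h3 : deg TT P ≤ deg TT L0 + deg T' P := by
          have hs : TT.filter (fun A => P ≤ A)
              ⊆ TT.filter (fun A => L0 ≤ A) ∪ T'.filter (fun A => P ≤ A) := by
            intro A hA
            simp only [Finset.mem_filter, Finset.mem_union, hT'] at hA ⊢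
            by_cases h : L0 ≤ A
            · exact Or.inl ⟨hA.1, h⟩
            · exact Or.inr ⟨⟨hA.1, h⟩, hA.2⟩
          exact (Finset.card_le_card hs).trans (Finset.card_union_le _ _)
        have h4 := hline L0 hex
        omega
      · -- no popular line through `P`
        have h1' := branching TT P S1 (fun A hA => hTTT A hA S1 hS1)
          (t * p ^ (τ - 3)) (fun Q hQ => by
            by_contra hlt
            push Not at hlt
            exact hex (hL0 (P ⊔ Q) (hPQ Q hQ) hlt le_sup_left ▸ hPQ Q hQ))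
        have h5 := h1'.trans (Nat.mul_le_mul_right _ hS1c)
        omega
    -- members containing no element of `TT` through `P`
    set GG : Finset (Submodule K V) := F.filter (fun A => ∀ S ∈ TT, P ≤ S → ¬ S ≤ A) with hGG
    have hGGF : ∀ A ∈ GG, A ∈ F := fun A hA => (Finset.mem_filter.mp hA).1
    set b0 := gb q (n - τ) (k - τ) with hb0
    set b1 := gb q (n - (τ + 1)) (k - (τ + 1)) with hb1
    have hend : ∀ S : Submodule K V, P ≤ S → finrank K S = τ → deg GG S ≤ p * b1 := by
      intro S hPS hS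
      by_cases hSt : Transv F S
      · have : deg GG S = 0 := by
          rw [deg, Finset.card_eq_zero, Finset.eq_empty_iff_forall_notMem]
          intro A hA
          simp only [hGG, Finset.mem_filter] at hA
          exact hA.1.2 S ((hTTm S).mpr ⟨hS, hSt⟩) hPS hA.2
        rw [this]
        exact Nat.zero_le _
      · unfold Transv at hSt
        push Not at hSt
        obtain ⟨G, hG, hGS⟩ := hSt
        have h1 := branching GG S G (fun B hB => hint B (hGGF B hB) G hG) b1 (fun Q hQ => by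
          simp only [pts, Finset.mem_filter, Finset.mem_univ, true_and] at hQ
          have h2 : finrank K (S ⊔ Q : Submodule K V) = τ + 1 := by
            rw [finrank_sup_point S Q hQ.1, hS]
            intro h
            have : Q ≤ G ⊓ S := le_inf hQ.2 h
            rw [hGS, le_bot_iff] at this
            exact point_ne_bot hQ.1 this
          have h3 := deg_le GG k (fun A hA => hFk A (hGGF A hA)) (S ⊔ Q) (by omega) (by omega)
          rwa [h2] at h3)
        rwa [hpA G hG] at h1
    have hGGP : deg GG P ≤ t * (p ^ (τ - 2) * (p * b1)) := by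
      have h1 := branching GG P S1 (fun A hA => hS1t A (hGGF A hA)) (p ^ (τ - 2) * (p * b1))
        (fun Q hQ => iterate2 GG F τ p (p * b1) hpA hmin
          (fun A hA G hG => hint A (hGGF A hA) G hG) P hend (τ - 2) (P ⊔ Q) le_sup_left
          (by rw [hPQ Q hQ]; omega))
      exact h1.trans (Nat.mul_le_mul_right _ hS1c)
    have hcover : deg F P ≤ deg GG P + deg TT P * b0 := by
      have hsub : F.filter (fun A => P ≤ A) ⊆ GG.filter (fun A => P ≤ A)
          ∪ (TT.filter (fun S => P ≤ S)).biUnion (fun S => F.filter (fun A => S ≤ A)) := by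
        intro A hA
        simp only [Finset.mem_filter] at hA
        simp only [hGG, Finset.mem_union, Finset.mem_filter, Finset.mem_biUnion]
        by_cases h : ∀ S ∈ TT, P ≤ S → ¬ S ≤ A
        · exact Or.inl ⟨⟨hA.1, h⟩, hA.2⟩
        · push Not at h
          obtain ⟨S, h1, h2, h3⟩ := h
          exact Or.inr ⟨S, ⟨h1, h2⟩, hA.1, h3⟩
      refine (Finset.card_le_card hsub).trans ((Finset.card_union_le _ _).trans ?_)
      refine Nat.add_le_add_left (Finset.card_biUnion_le_card_mul _ _ _ fun S hS => ?_) _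
      have h1 := ((hTTm S).mp (Finset.mem_filter.mp hS).1).1
      have h2 := deg_le F k hFk S (by omega) (by omega)
      rwa [h1] at h2
    -- numerical part
    have hB0 := gb_steps (K := K) n k (by omega) (τ - 2) (by omega)
    have hB1 := gb_steps (K := K) n k (by omega) (τ - 1) (by omega)
    rw [show 2 + (τ - 2) = τ by omega, ← hq, ← hb0, pow_mul] at hB0
    rw [show 2 + (τ - 1) = τ + 1 by omega, ← hq, ← hb1, pow_mul] at hB1
    have hmb : deg TT P * b0 ≤ (p ^ (τ - 2) + t * (t * p ^ (τ - 3))) * b0 :=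
      Nat.mul_le_mul_right _ hm
    have hnum : 16 * (p ^ (τ - 2) + t * (t * p ^ (τ - 3))) ≤ 7 * (q ^ (n - k)) ^ (τ - 2) ∧
        16 * (t * (p ^ (τ - 2) * p)) ≤ 7 * (q ^ (n - k)) ^ (τ - 1) := by
      rcases (show τ = 3 ∨ τ = 4 by omega) with h3 | h4
      · rw [h3] at htq ⊢
        have := num3 q n k p t hq1 hk hr hpk htq
        refine ⟨?_, ?_⟩
        · simpa using this.1
        · have e : t * (p ^ (3 - 2) * p) = t * p ^ 2 := by
            rw [show 3 - 2 = 1 from rfl]; ring
          rw [e]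
          exact this.2
      · rw [h4] at htq ⊢
        have := num4 q n k p t hq1 hk hr hpk htq
        refine ⟨?_, ?_⟩
        · simpa using this.1
        · have e : t * (p ^ (4 - 2) * p) = t * p ^ 3 := by
            rw [show 4 - 2 = 2 from rfl]; ring
          rw [e]
          exact this.2
    have h16 : 16 * deg F P ≤ 16 * gb q (n - 2) (k - 2) := by
      calc 16 * deg F P ≤ 16 * (t * (p ^ (τ - 2) * (p * b1))
              + (p ^ (τ - 2) + t * (t * p ^ (τ - 3))) * b0) :=
            Nat.mul_le_mul_left _ (hcover.trans (Nat.add_le_add hGGP hmb))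
        _ = (16 * (t * (p ^ (τ - 2) * p))) * b1
              + (16 * (p ^ (τ - 2) + t * (t * p ^ (τ - 3)))) * b0 := by ring
        _ ≤ (7 * (q ^ (n - k)) ^ (τ - 1)) * b1 + (7 * (q ^ (n - k)) ^ (τ - 2)) * b0 :=
            Nat.add_le_add (Nat.mul_le_mul_right _ hnum.2) (Nat.mul_le_mul_right _ hnum.1)
        _ = 7 * ((q ^ (n - k)) ^ (τ - 1) * b1) + 7 * ((q ^ (n - k)) ^ (τ - 2) * b0) := by ring
        _ ≤ 7 * gb q (n - 2) (k - 2) + 7 * gb q (n - 2) (k - 2) :=
            Nat.add_le_add (Nat.mul_le_mul_left _ hB1) (Nat.mul_le_mul_left _ hB0)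
        _ ≤ 16 * gb q (n - 2) (k - 2) := by omega
    exact Nat.le_of_mul_le_mul_left h16 (by omega)
  have hhigh : ∀ P ∈ high k F, finrank K P = 1 ∧ gb q (n - 2) (k - 2) < deg F P := by
    intro P hP
    simpa [high] using hP
  by_cases hstar : ∃ X : Submodule K V, finrank K X = 1 ∧
      ∀ L : Submodule K V, (finrank K L = 2 ∧ t * p ^ (τ - 3) < deg TT L) → X ≤ L
  · obtain ⟨X, hX, hXL⟩ := hstar
    refine ⟨T ⊔ X, ?_, fun P hP => ?_⟩
    · have := Submodule.finrank_add_le_finrank_add_finrank T X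
      omega
    · obtain ⟨hP1, hPd⟩ := hhigh P hP
      simp only [pts, Finset.mem_filter, Finset.mem_univ, true_and]
      refine ⟨hP1, ?_⟩
      by_contra hPW
      have hPT : ¬ P ≤ T := fun h => hPW (h.trans le_sup_left)
      have hPX : ¬ P ≤ X := fun h => hPW (h.trans le_sup_right)
      have h1 := hnothigh P (X ⊔ P) T hP1 hTmem hPT (fun L hL hLp hPL => by
        have h2 : finrank K (X ⊔ P : Submodule K V) = 2 := by
          rw [finrank_sup_point X P hP1 hPX, hX]
        exact (eq_of_le_of_finrank_eq (sup_le (hXL L ⟨hL, hLp⟩) hPL) (by omega)).symm)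
      omega
  · have hnt : ∃ L1 : Submodule K V, finrank K L1 = 2 ∧ t * p ^ (τ - 3) < deg TT L1 := by
      by_contra hno
      push Not at hno
      obtain ⟨X, hX, -⟩ := exists_pt T (by
        intro h0
        rw [h0, finrank_bot] at hT
        omega)
      exact hstar ⟨X, hX, fun L hL => absurd hL.2 (not_lt.mpr (hno L hL.1))⟩
    obtain ⟨L1, hL1⟩ := hnt
    obtain ⟨U, hU, hUL⟩ := lines (fun L => finrank K L = 2 ∧ t * p ^ (τ - 3) < deg TT L)
      (fun L h => h.1) hpop2 L1 hL1 hstar
    refine ⟨T ⊔ U, ?_, fun P hP => ?_⟩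
    · have := Submodule.finrank_add_le_finrank_add_finrank T U
      omega
    · obtain ⟨hP1, hPd⟩ := hhigh P hP
      simp only [pts, Finset.mem_filter, Finset.mem_univ, true_and]
      refine ⟨hP1, ?_⟩
      by_contra hPW
      have hPT : ¬ P ≤ T := fun h => hPW (h.trans le_sup_left)
      have h1 := hnothigh P ⊥ T hP1 hTmem hPT (fun L hL hLp hPL =>
        absurd ((hPL.trans (hUL L ⟨hL, hLp⟩)).trans le_sup_right) hPW)
      omega

lemma high_max2 (k : ℕ) (F : Finset (Submodule K V)) (hk : 7 ≤ k)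
    (hr : InRange2 (Nat.card K) (finrank K V) k) (hF : Maximal (Inter k) F) (hne : F.Nonempty) :
    ∃ W : Submodule K V, finrank K W ≤ k + 1 ∧ high k F ⊆ pts W := by
  have hq1 : 1 < Nat.card K := Finite.one_lt_card
  obtain ⟨⟨hFk, hint⟩, hmaxi⟩ := hF
  have hn2 : 2 * k + 1 ≤ finrank K V := hr.le
  set n := finrank K V with hn
  set q := Nat.card K with hq
  obtain ⟨A0, hA0⟩ := hne
  set p := (pts A0).card with hp
  have hpk : p * (q - 1) = q ^ k - 1 := by rw [hp, pts_card, hFk A0 hA0]
  have hpA : ∀ A ∈ F, (pts A).card = p := by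
    intro A hA
    have h1 : (pts A).card * (q - 1) = p * (q - 1) := by rw [hpk, pts_card, hFk A hA]
    exact Nat.eq_of_mul_eq_mul_right (by omega) h1
  have hex : ∃ s : ℕ, ∃ S : Submodule K V, finrank K S = s ∧ Transv F S :=
    ⟨k, A0, hFk A0 hA0, fun A hA => hint A hA A0 hA0⟩
  obtain ⟨T, hT, hTt⟩ := Nat.find_spec hex
  set τ := Nat.find hex with hτ
  have hmin : ∀ S : Submodule K V, finrank K S < τ → ¬ Transv F S := by
    intro S hS hSt
    exact Nat.find_min hex hS ⟨S, rfl, hSt⟩
  have hτk : τ ≤ k := Nat.find_le ⟨A0, hFk A0 hA0, fun A hA => hint A hA A0 hA0⟩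
  have hτ0 : τ ≠ 0 := by
    intro h0
    rw [h0, Submodule.finrank_eq_zero] at hT
    exact hTt A0 hA0 (by rw [hT, inf_bot_eq])
  have hhigh : ∀ P ∈ high k F, finrank K P = 1 ∧ gb q (n - 2) (k - 2) < deg F P := by
    intro P hP
    simpa [high] using hP
  -- a point outside a transversal `T'`
  have hout : ∀ (T' P : Submodule K V) (m : ℕ), Transv F T' → finrank K P = 1 → ¬ P ≤ T' →
      (∀ L : Submodule K V, finrank K L = 2 → P ≤ L → deg F L ≤ m) →
      deg F P ≤ (pts T').card * m := by
    intro T' P m hT' hP hPT' hL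
    refine branching F P T' hT' m fun Q hQ => ?_
    simp only [pts, Finset.mem_filter, Finset.mem_univ, true_and] at hQ
    refine hL (P ⊔ Q) ?_ le_sup_left
    rw [finrank_sup_point P Q hQ.1, hP]
    intro h
    exact hPT' (point_eq hQ.1 hP h ▸ hQ.2)
  rcases Nat.lt_or_ge τ 3 with hτ3 | hτ3
  · rcases Nat.lt_or_ge τ 2 with hτ2 | hτ2
    · -- a common point
      have hT1 : finrank K T = 1 := by omega
      refine ⟨T, by omega, fun P hP => ?_⟩
      obtain ⟨hP1, hPd⟩ := hhigh P hP
      simp only [pts, Finset.mem_filter, Finset.mem_univ, true_and]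
      refine ⟨hP1, ?_⟩
      by_contra hPT
      have h1 := hout T P (gb q (n - 2) (k - 2)) hTt hP1 hPT (fun L hL _ => by
        have := deg_le F k hFk L (by omega) (by omega)
        rwa [hL] at this)
      have h2 : (pts T).card = 1 := by
        have h3 : (pts T).card * (q - 1) = q ^ finrank K T - 1 := pts_card T
        rw [hT1, pow_one] at h3
        exact Nat.eq_of_mul_eq_mul_right (by omega : 0 < q - 1) (by omega)
      rw [h2, one_mul] at h1
      omega
    · -- transversal lines
      have hT2 : finrank K T = 2 := by omega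
      have hkn : k ≤ n := by omega
      have hnon : ∀ L : Submodule K V, finrank K L = 2 → ¬ Transv F L →
          deg F L ≤ p * gb q (n - 3) (k - 3) := by
        intro L hL hLt
        unfold Transv at hLt
        push Not at hLt
        obtain ⟨A, hA, hAL⟩ := hLt
        have h1 := branching F L A (fun B hB => hint B hB A hA) (gb q (n - 3) (k - 3)) ?_
        · rwa [hpA A hA] at h1
        · intro Q hQ
          simp only [pts, Finset.mem_filter, Finset.mem_univ, true_and] at hQ
          have h2 : finrank K (L ⊔ Q : Submodule K V) = 3 := by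
            rw [finrank_sup_point L Q hQ.1, hL]
            intro h
            have : Q ≤ A ⊓ L := le_inf hQ.2 h
            rw [hAL, le_bot_iff] at this
            exact point_ne_bot hQ.1 this
          have := deg_le F k hFk (L ⊔ Q) (by omega) hkn
          rwa [h2] at this
      have hline : ∀ P ∈ high k F, ∃ L : Submodule K V, finrank K L = 2 ∧ Transv F L ∧ P ≤ L := by
        intro P hP
        obtain ⟨hP1, hPd⟩ := hhigh P hP
        by_cases hPT : P ≤ T
        · exact ⟨T, hT2, hTt, hPT⟩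
        by_contra hno
        push Not at hno
        have h1 := hout T P (p * gb q (n - 3) (k - 3)) hTt hP1 hPT
          (fun L hL hPL => hnon L hL (fun hLt => hno L hL hLt hPL))
        have h2 := pts_card T
        rw [hT2] at h2
        have h3 := numeric_two2 q n k p (pts T).card hq1 hr hpk h2
        have h4 := gb_steps (K := K) n k hkn 1 (by omega)
        rw [mul_one, show 2 + 1 = 3 from rfl, ← hq] at h4
        have h5 : (pts T).card * (p * gb q (n - 3) (k - 3))
            ≤ q ^ (n - k) * gb q (n - 3) (k - 3) := by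
          rw [← mul_assoc]
          exact Nat.mul_le_mul_right _ h3
        omega
      -- transversal lines meet
      have hmeet : ∀ L : Submodule K V, (finrank K L = 2 ∧ Transv F L) →
          ∀ L' : Submodule K V, (finrank K L' = 2 ∧ Transv F L') → L ⊓ L' ≠ ⊥ := by
        intro L hL L' hL' h0
        have hmem : ∀ (M A : Submodule K V), Transv F M → M ≤ A → finrank K A = k → A ∈ F := by
          intro M A hM hMA hA
          have h1 : Inter k (insert A F) := by
            refine ⟨?_, ?_⟩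
            · intro B hB
              rcases Finset.mem_insert.mp hB with rfl | hB
              · exact hA
              · exact hFk B hB
            · have h2 : ∀ B ∈ F, B ⊓ A ≠ ⊥ := fun B hB h =>
                hM B hB (le_bot_iff.mp (h ▸ inf_le_inf_left B hMA))
              intro B hB C hC
              rcases Finset.mem_insert.mp hB with hBA | hBF
              · rcases Finset.mem_insert.mp hC with hCA | hCF
                · rw [hBA, hCA, inf_idem]
                  intro hbot
                  rw [hbot, finrank_bot] at hA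
                  omega
                · rw [inf_comm, hBA]
                  exact h2 C hCF
              · rcases Finset.mem_insert.mp hC with hCA | hCF
                · rw [hCA]
                  exact h2 B hBF
                · exact hint B hBF C hCF
          exact hmaxi h1 (Finset.subset_insert A F) (Finset.mem_insert_self A F)
        obtain ⟨A, hLA, hAk, hAL'⟩ := exists_ext (k - 2) L L' h0 (by omega)
        obtain ⟨B, hLB, hBk, hBA⟩ := exists_ext (k - 2) L' A (by rw [inf_comm]; exact hAL')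
          (by omega)
        have hA := hmem L A hL.2 hLA (by omega)
        have hB := hmem L' B hL'.2 hLB (by omega)
        exact hint B hB A hA hBA
      by_cases hstar : ∃ X : Submodule K V, finrank K X = 1 ∧
          ∀ L : Submodule K V, (finrank K L = 2 ∧ Transv F L) → X ≤ L
      · obtain ⟨X, hX, hXL⟩ := hstar
        have hXt := hmin X (by omega)
        unfold Transv at hXt
        push Not at hXt
        obtain ⟨G, hG, hGX⟩ := hXt
        have hXG : ¬ X ≤ G := by
          intro h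
          rw [inf_eq_right.mpr h] at hGX
          exact point_ne_bot hX hGX
        refine ⟨G ⊔ X, by rw [finrank_sup_point G X hX hXG, hFk G hG], fun P hP => ?_⟩
        obtain ⟨hP1, -⟩ := hhigh P hP
        obtain ⟨L, hL, hLt, hPL⟩ := hline P hP
        simp only [pts, Finset.mem_filter, Finset.mem_univ, true_and]
        refine ⟨hP1, hPL.trans ?_⟩
        obtain ⟨Q, hQ, hQl⟩ := exists_pt (G ⊓ L) (hLt G hG)
        have hQX : ¬ Q ≤ X := fun h => hXG (point_eq hQ hX h ▸ hQl.trans inf_le_left)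
        have h1 : finrank K (X ⊔ Q : Submodule K V) = 2 := by
          rw [finrank_sup_point X Q hQ hQX, hX]
        have h2 : X ⊔ Q = L :=
          eq_of_le_of_finrank_eq (sup_le (hXL L ⟨hL, hLt⟩) (hQl.trans inf_le_right)) (by omega)
        rw [← h2]
        exact sup_le le_sup_right ((hQl.trans inf_le_left).trans le_sup_left)
      · obtain ⟨U, hU, hUL⟩ := lines (fun L => finrank K L = 2 ∧ Transv F L) (fun L h => h.1)
          hmeet T ⟨hT2, hTt⟩ hstar
        refine ⟨U, by omega, fun P hP => ?_⟩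
        obtain ⟨hP1, -⟩ := hhigh P hP
        obtain ⟨L, hL, hLt, hPL⟩ := hline P hP
        simp only [pts, Finset.mem_filter, Finset.mem_univ, true_and]
        exact ⟨hP1, hPL.trans (hUL L ⟨hL, hLt⟩)⟩
  · rcases Nat.lt_or_ge τ 5 with hτ5 | hτ5
    · obtain ⟨W, hW, hWs⟩ := fine k F hk hr ⟨⟨hFk, hint⟩, hmaxi⟩ τ p T (by omega) (by omega) hT hTt
        hmin hpA hpk
      exact ⟨W, hW, hWs⟩
    · -- `τ ≥ 5`: all high points lie in `T`
      refine ⟨T, by omega, fun P hP => ?_⟩
      obtain ⟨hP1, hPd⟩ := hhigh P hP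
      simp only [pts, Finset.mem_filter, Finset.mem_univ, true_and]
      refine ⟨hP1, ?_⟩
      by_contra hPT
      obtain ⟨j, hj⟩ : ∃ j, τ = j + 2 := ⟨τ - 2, by omega⟩
      have h1 := hout T P (p ^ j * gb q (n - τ) (k - τ)) hTt hP1 hPT
        (fun L hL _ => iterate F k τ p hFk (by omega) hτk hpA hmin hint j L (by omega))
      have h2 := pts_card T
      rw [hT, hj] at h2
      have h3 := numeric_pow2 q n k j p (pts T).card hq1 hr (by omega) hpk h2
      have h4 := gb_steps (K := K) n k (by omega) j (by omega)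
      rw [show 2 + j = τ by omega, ← hq] at h4
      have h5 : (pts T).card * (p ^ j * gb q (n - τ) (k - τ))
          ≤ q ^ ((n - k) * j) * gb q (n - τ) (k - τ) := by
        rw [← mul_assoc]
        exact Nat.mul_le_mul_right _ h3
      omega


/-- Upper bound: at most `[k+1]` high points. -/
lemma high_card2 (k : ℕ) (F : Finset (Submodule K V)) (hk : 7 ≤ k)
    (hr : InRange2 (Nat.card K) (finrank K V) k) (hF : Inter k F) :
    (high k F).card * (Nat.card K - 1) ≤ Nat.card K ^ (k + 1) - 1 := by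
  have hq1 : 1 < Nat.card K := Finite.one_lt_card
  obtain ⟨G, hFG, hG⟩ := Finite.exists_le_maximal hF
  have hsub : high k F ⊆ high k G := by
    intro P hP
    simp only [high, Finset.mem_filter, Finset.mem_univ, true_and] at hP ⊢
    refine ⟨hP.1, hP.2.trans_le ?_⟩
    exact Finset.card_le_card (Finset.filter_subset_filter _ hFG)
  rcases G.eq_empty_or_nonempty with hGe | hGne
  · have : high k G = ∅ := by
      rw [Finset.eq_empty_iff_forall_notMem]
      intro P hP
      simp [high, deg, hGe] at hP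
    rw [this] at hsub
    rw [Finset.subset_empty.mp hsub]
    simp
  · obtain ⟨W, hW, hW2⟩ := high_max2 k G hk hr hG hGne
    have h1 := Finset.card_le_card (hsub.trans hW2)
    calc (high k F).card * (Nat.card K - 1) ≤ (pts W).card * (Nat.card K - 1) :=
          Nat.mul_le_mul_right _ h1
      _ = Nat.card K ^ finrank K W - 1 := pts_card W
      _ ≤ Nat.card K ^ (k + 1) - 1 :=
          Nat.sub_le_sub_right (Nat.pow_le_pow_right (by omega) hW) 1

/-- The maximal number of high points is `[k+1]`. -/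
lemma greatest2 (k : ℕ) (hk : 7 ≤ k) (hr : InRange2 (Nat.card K) (finrank K V) k) :
    IsGreatest {m : ℕ | ∃ F : Finset (Submodule K V), Inter k F ∧ m = (high k F).card}
      (br (Nat.card K) (k + 1)) := by
  have hq1 : 1 < Nat.card K := Finite.one_lt_card
  have hup : ∀ F : Finset (Submodule K V), Inter k F →
      (high k F).card ≤ br (Nat.card K) (k + 1) := by
    intro F hF
    have h1 := high_card2 k F hk hr hF
    rw [← br_mul] at h1
    exact Nat.le_of_mul_le_mul_right h1 (by omega)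
  have hle := hr.le
  obtain ⟨F, W, hF, hW, hWF⟩ := hm_family (K := K) (V := V) k (by omega) (by omega)
  have h2 : (pts W).card = br (Nat.card K) (k + 1) := by
    have h3 := pts_card W
    rw [hW, ← br_mul] at h3
    exact Nat.eq_of_mul_eq_mul_right (by omega) h3
  refine ⟨⟨F, hF, le_antisymm ?_ (hup F hF)⟩, ?_⟩
  · rw [← h2]
    exact Finset.card_le_card hWF
  · rintro m ⟨G, hG, rfl⟩
    exact hup G hG

end
end Pool.Agent.H99.SubDeg
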