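import Pool.Agent.H99.SubDeg

set_option autoImplicit false

open Module Submodule Finset

namespace Pool.Agent.H99.SubDeg

section
variable {K : Type} [Field K] [Finite K]

lemma gb_step (a b : ℕ) (hb : b + 1 ≤ a) :
    Nat.card K ^ (a - (b + 1)) * gb (Nat.card K) (a - 1) b ≤ gb (Nat.card K) a (b + 1) := by
  have hq : 1 < Nat.card K := Finite.one_lt_card
  have h := gb_rec (K := K) a b hb
  set q := Nat.card K
  have hpos : 0 < q ^ (b + 1) - 1 := by
    have : 1 < q ^ (b + 1) := Nat.one_lt_pow (by omega) hq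
    omega
  refine Nat.le_of_mul_le_mul_right ?_ hpos
  rw [h]
  have h1 : q ^ (a - (b + 1)) * (q ^ (b + 1) - 1) ≤ q ^ a - 1 := by
    rw [Nat.mul_sub, mul_one, ← pow_add]
    have h2 : a - (b + 1) + (b + 1) = a := by omega
    rw [h2]
    have h3 : 1 ≤ q ^ (a - (b + 1)) := Nat.one_le_pow _ _ (by omega)
    omega
  calc q ^ (a - (b + 1)) * gb q (a - 1) b * (q ^ (b + 1) - 1)
      = (q ^ (a - (b + 1)) * (q ^ (b + 1) - 1)) * gb q (a - 1) b := by ring
    _ ≤ (q ^ a - 1) * gb q (a - 1) b := Nat.mul_le_mul_right _ h1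

lemma gb_steps (n k : ℕ) (hkn : k ≤ n) (j : ℕ) : 2 + j ≤ k →
    Nat.card K ^ ((n - k) * j) * gb (Nat.card K) (n - (2 + j)) (k - (2 + j))
      ≤ gb (Nat.card K) (n - 2) (k - 2) := by
  induction j with
  | zero => intro _; simp
  | succ j ih =>
    intro hj
    have h1 := ih (by omega)
    have h2 := gb_step (K := K) (n - (2 + j)) (k - (2 + (j + 1))) (by omega)
    rw [show k - (2 + (j + 1)) + 1 = k - (2 + j) by omega,
      show n - (2 + j) - 1 = n - (2 + (j + 1)) by omega,
      show n - (2 + j) - (k - (2 + j)) = n - k by omega] at h2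
    calc Nat.card K ^ ((n - k) * (j + 1)) * gb (Nat.card K) (n - (2 + (j + 1))) (k - (2 + (j + 1)))
        = Nat.card K ^ ((n - k) * j) * (Nat.card K ^ (n - k)
            * gb (Nat.card K) (n - (2 + (j + 1))) (k - (2 + (j + 1)))) := by
          rw [Nat.mul_add, mul_one, pow_add]; ring
      _ ≤ Nat.card K ^ ((n - k) * j) * gb (Nat.card K) (n - (2 + j)) (k - (2 + j)) :=
          Nat.mul_le_mul_left _ h2
      _ ≤ _ := h1

/-- The range of parameters: `n ≥ 2k + 3`, or `q ≥ 3` and `n ≥ 2k + 2`. -/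
def InRange (q n k : ℕ) : Prop := 2 * k + 3 ≤ n ∨ (3 ≤ q ∧ 2 * k + 2 ≤ n)

lemma InRange.le {q n k : ℕ} (h : InRange q n k) : 2 * k + 2 ≤ n := by
  rcases h with h | h
  · omega
  · exact h.2

/-- `[τ][k]^(τ-2) ≤ q^((n-k)(τ-2))` with `τ = j + 2`, `j ≥ 1`. -/
lemma numeric_pow (q n k j p t : ℕ) (hq : 1 < q) (hr : InRange q n k) (hj : 1 ≤ j)
    (hp : p * (q - 1) = q ^ k - 1) (ht : t * (q - 1) = q ^ (j + 2) - 1) :
    t * p ^ j ≤ q ^ ((n - k) * j) := by
  have hp' : p * (q - 1) ≤ q ^ k := by omega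
  have ht' : t * (q - 1) ≤ q ^ (j + 2) := by omega
  rcases hr with hn | ⟨hq3, hn⟩
  · have hp2 : p ≤ q ^ k := le_trans (Nat.le_mul_of_pos_right p (by omega)) hp'
    have ht2 : t ≤ q ^ (j + 2) := le_trans (Nat.le_mul_of_pos_right t (by omega)) ht'
    calc t * p ^ j ≤ q ^ (j + 2) * (q ^ k) ^ j := Nat.mul_le_mul ht2 (Nat.pow_le_pow_left hp2 j)
      _ = q ^ (j + 2 + k * j) := by rw [← pow_mul, ← pow_add]
      _ ≤ q ^ ((n - k) * j) := by
          refine Nat.pow_le_pow_right (by omega) ?_
          have h1 : (k + 3) * j ≤ (n - k) * j := Nat.mul_le_mul_right j (by omega)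
          have h2 : (k + 3) * j = k * j + 3 * j := by ring
          omega
  · have hpos : 0 < (q - 1) ^ (j + 1) := Nat.pow_pos (by omega)
    refine Nat.le_of_mul_le_mul_right ?_ hpos
    have h1 : t * p ^ j * (q - 1) ^ (j + 1) = (t * (q - 1)) * (p * (q - 1)) ^ j := by
      rw [mul_pow, pow_succ]; ring
    rw [h1]
    have h2 : (t * (q - 1)) * (p * (q - 1)) ^ j ≤ q ^ (j + 2) * (q ^ k) ^ j :=
      Nat.mul_le_mul ht' (Nat.pow_le_pow_left hp' j)
    have h3 : q ^ (j + 2) * (q ^ k) ^ j = q ^ (k * j + j) * (q * q) := by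
      rw [← pow_mul, pow_add, pow_add, pow_two]; ring
    have h4 : q ≤ (q - 1) ^ (j + 1) := by
      have h5 : q ≤ (q - 1) ^ 2 := by
        obtain ⟨m, rfl⟩ : ∃ m, q = m + 3 := ⟨q - 3, by omega⟩
        have : m + 3 - 1 = m + 2 := by omega
        rw [this]
        nlinarith
      exact h5.trans (Nat.pow_le_pow_right (by omega) (by omega))
    have h6 : q ≤ q ^ j := by
      calc q = q ^ 1 := (pow_one q).symm
        _ ≤ q ^ j := Nat.pow_le_pow_right (by omega) hj
    calc (t * (q - 1)) * (p * (q - 1)) ^ j ≤ q ^ (k * j + j) * (q * q) := by rw [← h3]; exact h2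
      _ ≤ q ^ (k * j + j) * (q ^ j * (q - 1) ^ (j + 1)) :=
          Nat.mul_le_mul_left _ (Nat.mul_le_mul h6 h4)
      _ = q ^ (k * j + j + j) * (q - 1) ^ (j + 1) := by rw [pow_add q (k * j + j) j]; ring
      _ ≤ q ^ ((n - k) * j) * (q - 1) ^ (j + 1) := by
          refine Nat.mul_le_mul_right _ (Nat.pow_le_pow_right (by omega) ?_)
          have h1 : (k + 2) * j ≤ (n - k) * j := Nat.mul_le_mul_right j (by omega)
          have h2 : (k + 2) * j = k * j + j + j := by ring
          omega

/-- `[2][k] ≤ q^(n-k)` for `n ≥ 2k+2`. -/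
lemma numeric_two (q n k p t : ℕ) (hq : 1 < q) (hn : 2 * k + 2 ≤ n)
    (hp : p * (q - 1) = q ^ k - 1) (ht : t * (q - 1) = q ^ 2 - 1) :
    t * p ≤ q ^ (n - k) := by
  have hp2 : p ≤ q ^ k := by
    have := Nat.le_mul_of_pos_right p (show 0 < q - 1 by omega)
    omega
  have ht2 : t ≤ q ^ 2 := by
    have := Nat.le_mul_of_pos_right t (show 0 < q - 1 by omega)
    omega
  calc t * p ≤ q ^ 2 * q ^ k := Nat.mul_le_mul ht2 hp2
    _ = q ^ (2 + k) := by rw [← pow_add]
    _ ≤ q ^ (n - k) := Nat.pow_le_pow_right (by omega) (by omega)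

end

set_option linter.unusedSectionVars false

open scoped Classical in
section
variable {K : Type} [Field K] [Finite K] {V : Type} [AddCommGroup V] [Module K V] [Finite V]

/-- extension of `S` avoiding `T` -/
lemma exists_ext (m : ℕ) : ∀ (S T : Submodule K V), S ⊓ T = ⊥ →
    finrank K S + m + finrank K T ≤ finrank K V →
    ∃ S' : Submodule K V, S ≤ S' ∧ finrank K S' = finrank K S + m ∧ S' ⊓ T = ⊥ := by
  induction m with
  | zero => intro S T h _; exact ⟨S, le_rfl, rfl, h⟩
  | succ m ih =>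
    intro S T h hm
    have h1 := Submodule.finrank_sup_add_finrank_inf_eq S T
    rw [h, finrank_bot] at h1
    have hne : S ⊔ T ≠ ⊤ := by
      intro htop
      rw [htop, finrank_top] at h1
      omega
    obtain ⟨v, -, hv⟩ := SetLike.exists_of_lt (lt_top_iff_ne_top.mpr hne)
    have hv0 : v ≠ 0 := by rintro rfl; exact hv (S ⊔ T).zero_mem
    have hvS : ¬ span K {v} ≤ S :=
      fun hh => hv (le_sup_left (a := S) (b := T) ((span_singleton_le_iff_mem v S).mp hh))
    have h2 : finrank K (S ⊔ span K {v} : Submodule K V) = finrank K S + 1 :=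
      finrank_sup_point S _ (finrank_span_singleton hv0) hvS
    have h3 : (S ⊔ span K {v}) ⊓ T = ⊥ := by
      have h4 : finrank K (S ⊔ T ⊔ span K {v} : Submodule K V) = finrank K (S ⊔ T : Submodule K V) + 1 :=
        finrank_sup_point (S ⊔ T) _ (finrank_span_singleton hv0)
          (fun hh => hv ((span_singleton_le_iff_mem v _).mp hh))
      have h5 := Submodule.finrank_sup_add_finrank_inf_eq (S ⊔ span K {v}) T
      have h6 : S ⊔ span K {v} ⊔ T = S ⊔ T ⊔ span K {v} := by
        rw [sup_assoc, sup_comm (span K {v}) T, ← sup_assoc]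
      rw [h6] at h5
      exact Submodule.finrank_eq_zero.mp (by omega)
    obtain ⟨S', h7, h8, h9⟩ := ih (S ⊔ span K {v}) T h3 (by omega)
    exact ⟨S', le_sup_left.trans h7, by omega, h9⟩

/-- A transversal meets every member. -/
def Transv (F : Finset (Submodule K V)) (S : Submodule K V) : Prop := ∀ A ∈ F, A ⊓ S ≠ ⊥

/-- iterated branching -/
lemma iterate (F : Finset (Submodule K V)) (k τ p : ℕ) (hF : ∀ A ∈ F, finrank K A = k)
    (hkn : k ≤ finrank K V) (hτk : τ ≤ k)
    (hp : ∀ A ∈ F, (pts A).card = p)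
    (hmin : ∀ S : Submodule K V, finrank K S < τ → ¬ Transv F S) (hint : ∀ A ∈ F, ∀ B ∈ F, A ⊓ B ≠ ⊥)
    (j : ℕ) : ∀ S : Submodule K V, finrank K S + j = τ →
      deg F S ≤ p ^ j * gb (Nat.card K) (finrank K V - τ) (k - τ) := by
  induction j with
  | zero =>
    intro S hS
    have h := deg_le F k hF S (by omega) hkn
    rw [show finrank K S = τ by omega] at h
    simpa using h
  | succ j ih =>
    intro S hS
    have h1 := hmin S (by omega)
    unfold Transv at h1
    push Not at h1
    obtain ⟨A, hA, hAS⟩ := h1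
    have h2 := branching F S A (fun B hB => hint B hB A hA)
      (p ^ j * gb (Nat.card K) (finrank K V - τ) (k - τ)) ?_
    · rw [hp A hA] at h2
      calc deg F S ≤ p * (p ^ j * gb (Nat.card K) (finrank K V - τ) (k - τ)) := h2
        _ = p ^ (j + 1) * gb (Nat.card K) (finrank K V - τ) (k - τ) := by rw [pow_succ]; ring
    · intro Q hQ
      simp only [pts, Finset.mem_filter, Finset.mem_univ, true_and] at hQ
      apply ih
      rw [finrank_sup_point S Q hQ.1]
      · omega
      · intro h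
        have : Q ≤ A ⊓ S := le_inf hQ.2 h
        rw [hAS, le_bot_iff] at this
        exact point_ne_bot hQ.1 this

/-- in the triangle / star dichotomy for lines meeting pairwise -/
lemma tri (L1 L2 L3 X : Submodule K V) (hX : finrank K X = 1) (hXe : L1 ⊓ L2 = X)
    (hXL3 : ¬ X ≤ L3) (hL3U : L3 ≤ L1 ⊔ L2) (A : Submodule K V)
    (h1 : A ⊓ L1 ≠ ⊥) (h2 : A ⊓ L2 ≠ ⊥) (h3 : A ⊓ L3 ≠ ⊥) :
    2 ≤ finrank K (A ⊓ (L1 ⊔ L2) : Submodule K V) := by
  by_contra hlt
  obtain ⟨R1, hR1, hR1l⟩ := exists_pt _ h1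
  obtain ⟨R2, hR2, hR2l⟩ := exists_pt _ h2
  obtain ⟨R3, hR3, hR3l⟩ := exists_pt _ h3
  have e1 : R1 = A ⊓ (L1 ⊔ L2) := eq_of_le_of_finrank_le
    (hR1l.trans (inf_le_inf_left A le_sup_left)) (by omega)
  have e2 : R2 = A ⊓ (L1 ⊔ L2) := eq_of_le_of_finrank_le
    (hR2l.trans (inf_le_inf_left A le_sup_right)) (by omega)
  have e3 : R3 = A ⊓ (L1 ⊔ L2) := eq_of_le_of_finrank_le
    (hR3l.trans (inf_le_inf_left A hL3U)) (by omega)
  have h4 : R1 ≤ L1 ⊓ L2 := le_inf (hR1l.trans inf_le_right)
    ((e1.trans e2.symm) ▸ hR2l.trans inf_le_right)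
  rw [hXe] at h4
  have h5 : R1 = X := point_eq hR1 hX h4
  apply hXL3
  rw [← h5, e1.trans e3.symm]
  exact hR3l.trans inf_le_right

/-- Pairwise meeting lines: all through a point, or all in a three-dimensional space. -/
lemma lines (T : Submodule K V → Prop) (hT : ∀ L, T L → finrank K L = 2)
    (hTT : ∀ L, T L → ∀ L', T L' → L ⊓ L' ≠ ⊥) (L1 : Submodule K V) (hL1 : T L1)
    (hstar : ¬ ∃ X : Submodule K V, finrank K X = 1 ∧ ∀ L, T L → X ≤ L) :
    ∃ U : Submodule K V, finrank K U = 3 ∧ ∀ L, T L → L ≤ U := by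
  have hstar' : ∀ X : Submodule K V, finrank K X = 1 → ∃ L : Submodule K V, T L ∧ ¬ X ≤ L := by
    intro X hX
    by_contra h
    push Not at h
    exact hstar ⟨X, hX, h⟩
  have hL1d := hT L1 hL1
  obtain ⟨P0, hP0, hP0l⟩ := exists_pt L1 (by rintro rfl; simp at hL1d)
  obtain ⟨L2, hL2, hPL2⟩ := hstar' P0 hP0
  have hL2d := hT L2 hL2
  obtain ⟨X, hX, hXle⟩ := exists_pt (L1 ⊓ L2) (hTT L1 hL1 L2 hL2)
  have hX12 : finrank K (L1 ⊓ L2 : Submodule K V) ≤ 1 := by
    by_contra h
    have h1 : L1 ⊓ L2 = L1 := eq_of_le_of_finrank_le inf_le_left (by omega)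
    exact hPL2 (hP0l.trans (inf_eq_left.mp h1))
  have hXe : L1 ⊓ L2 = X := (eq_of_le_of_finrank_le hXle (by omega)).symm
  have hU : finrank K (L1 ⊔ L2 : Submodule K V) = 3 := by
    have h1 := Submodule.finrank_sup_add_finrank_inf_eq L1 L2
    rw [hXe] at h1
    omega
  obtain ⟨L3, hL3, hXL3⟩ := hstar' X hX
  have hL3d := hT L3 hL3
  have hL3U : L3 ≤ L1 ⊔ L2 := by
    obtain ⟨Q1, hQ1, hQ1l⟩ := exists_pt (L3 ⊓ L1) (hTT L3 hL3 L1 hL1)
    obtain ⟨Q2, hQ2, hQ2l⟩ := exists_pt (L3 ⊓ L2) (hTT L3 hL3 L2 hL2)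
    have hne12 : ¬ Q2 ≤ Q1 := by
      intro h
      have h1 : Q2 = Q1 := point_eq hQ2 hQ1 h
      subst h1
      have h2 : Q2 ≤ L1 ⊓ L2 := le_inf (hQ1l.trans inf_le_right) (hQ2l.trans inf_le_right)
      rw [hXe] at h2
      have h3 : Q2 = X := point_eq hQ2 hX h2
      exact hXL3 (h3 ▸ hQ2l.trans inf_le_left)
    have h1 : finrank K (Q1 ⊔ Q2 : Submodule K V) = 2 := by
      rw [finrank_sup_point Q1 Q2 hQ2 hne12, hQ1]
    have h2 : Q1 ⊔ Q2 = L3 :=
      eq_of_le_of_finrank_eq (sup_le (hQ1l.trans inf_le_left) (hQ2l.trans inf_le_left))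
        (by omega)
    rw [← h2]
    exact sup_le ((hQ1l.trans inf_le_right).trans le_sup_left)
      ((hQ2l.trans inf_le_right).trans le_sup_right)
  refine ⟨L1 ⊔ L2, hU, fun L hL => ?_⟩
  have hLd := hT L hL
  have h1 := tri L1 L2 L3 X hX hXe hXL3 hL3U L (hTT L hL L1 hL1) (hTT L hL L2 hL2)
    (hTT L hL L3 hL3)
  have h2 : L ⊓ (L1 ⊔ L2) = L := eq_of_le_of_finrank_le inf_le_left (by omega)
  exact inf_eq_left.mp h2

/-- a `k`-uniform intersecting family -/
def Inter (k : ℕ) (F : Finset (Submodule K V)) : Prop :=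
  (∀ A ∈ F, finrank K A = k) ∧ ∀ A ∈ F, ∀ B ∈ F, A ⊓ B ≠ ⊥

/-- the high points -/
noncomputable def high (k : ℕ) (F : Finset (Submodule K V)) : Finset (Submodule K V) :=
  univ.filter (fun P => finrank K P = 1 ∧
    gb (Nat.card K) (finrank K V - 2) (k - 2) < deg F P)

lemma high_max (k : ℕ) (F : Finset (Submodule K V)) (hk : 3 ≤ k)
    (hr : InRange (Nat.card K) (finrank K V) k) (hF : Maximal (Inter k) F) (hne : F.Nonempty) :
    ∃ W : Submodule K V, finrank K W ≤ k + 1 ∧ high k F ⊆ pts W := by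
  have hq1 : 1 < Nat.card K := Finite.one_lt_card
  obtain ⟨⟨hFk, hint⟩, hmaxi⟩ := hF
  have hn2 := hr.le
  set n := finrank K V with hn
  set q := Nat.card K with hq
  obtain ⟨A0, hA0⟩ := hne
  set p := (pts A0).card with hp
  have hpk : p * (q - 1) = q ^ k - 1 := by rw [hp, pts_card, hFk A0 hA0]
  have hpA : ∀ A ∈ F, (pts A).card = p := by
    intro A hA
    have h1 : (pts A).card * (q - 1) = p * (q - 1) := by rw [hpk, pts_card, hFk A hA]
    exact Nat.eq_of_mul_eq_mul_right (by omega) h1
  have hex : ∃ s : ℕ, ∃ S : Submodule K V, finrank K S = s ∧ Transv F S :=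
    ⟨k, A0, hFk A0 hA0, fun A hA => hint A hA A0 hA0⟩
  obtain ⟨T, hT, hTt⟩ := Nat.find_spec hex
  set τ := Nat.find hex with hτ
  have hmin : ∀ S : Submodule K V, finrank K S < τ → ¬ Transv F S := by
    intro S hS hSt
    exact Nat.find_min hex hS ⟨S, rfl, hSt⟩
  have hτk : τ ≤ k := Nat.find_le ⟨A0, hFk A0 hA0, fun A hA => hint A hA A0 hA0⟩
  have hτ0 : τ ≠ 0 := by
    intro h0
    rw [h0, Submodule.finrank_eq_zero] at hT
    exact hTt A0 hA0 (by rw [hT, inf_bot_eq])
  have hhigh : ∀ P ∈ high k F, finrank K P = 1 ∧ gb q (n - 2) (k - 2) < deg F P := by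
    intro P hP
    simpa [high] using hP
  -- a point outside a transversal `T'`
  have hout : ∀ (T' P : Submodule K V) (m : ℕ), Transv F T' → finrank K P = 1 → ¬ P ≤ T' →
      (∀ L : Submodule K V, finrank K L = 2 → P ≤ L → deg F L ≤ m) →
      deg F P ≤ (pts T').card * m := by
    intro T' P m hT' hP hPT' hL
    refine branching F P T' hT' m fun Q hQ => ?_
    simp only [pts, Finset.mem_filter, Finset.mem_univ, true_and] at hQ
    refine hL (P ⊔ Q) ?_ le_sup_left
    rw [finrank_sup_point P Q hQ.1, hP]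
    intro h
    exact hPT' (point_eq hQ.1 hP h ▸ hQ.2)
  rcases Nat.lt_or_ge τ 3 with hτ3 | hτ3
  · rcases Nat.lt_or_ge τ 2 with hτ2 | hτ2
    · -- a common point
      have hT1 : finrank K T = 1 := by omega
      refine ⟨T, by omega, fun P hP => ?_⟩
      obtain ⟨hP1, hPd⟩ := hhigh P hP
      simp only [pts, Finset.mem_filter, Finset.mem_univ, true_and]
      refine ⟨hP1, ?_⟩
      by_contra hPT
      have h1 := hout T P (gb q (n - 2) (k - 2)) hTt hP1 hPT (fun L hL _ => by
        have := deg_le F k hFk L (by omega) (by omega)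
        rwa [hL] at this)
      have h2 : (pts T).card = 1 := by
        have h3 : (pts T).card * (q - 1) = q ^ finrank K T - 1 := pts_card T
        rw [hT1, pow_one] at h3
        exact Nat.eq_of_mul_eq_mul_right (by omega : 0 < q - 1) (by omega)
      rw [h2, one_mul] at h1
      omega
    · -- transversal lines
      have hT2 : finrank K T = 2 := by omega
      have hkn : k ≤ n := by omega
      have hnon : ∀ L : Submodule K V, finrank K L = 2 → ¬ Transv F L →
          deg F L ≤ p * gb q (n - 3) (k - 3) := by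
        intro L hL hLt
        unfold Transv at hLt
        push Not at hLt
        obtain ⟨A, hA, hAL⟩ := hLt
        have h1 := branching F L A (fun B hB => hint B hB A hA) (gb q (n - 3) (k - 3)) ?_
        · rwa [hpA A hA] at h1
        · intro Q hQ
          simp only [pts, Finset.mem_filter, Finset.mem_univ, true_and] at hQ
          have h2 : finrank K (L ⊔ Q : Submodule K V) = 3 := by
            rw [finrank_sup_point L Q hQ.1, hL]
            intro h
            have : Q ≤ A ⊓ L := le_inf hQ.2 h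
            rw [hAL, le_bot_iff] at this
            exact point_ne_bot hQ.1 this
          have := deg_le F k hFk (L ⊔ Q) (by omega) hkn
          rwa [h2] at this
      have hline : ∀ P ∈ high k F, ∃ L : Submodule K V, finrank K L = 2 ∧ Transv F L ∧ P ≤ L := by
        intro P hP
        obtain ⟨hP1, hPd⟩ := hhigh P hP
        by_cases hPT : P ≤ T
        · exact ⟨T, hT2, hTt, hPT⟩
        by_contra hno
        push Not at hno
        have h1 := hout T P (p * gb q (n - 3) (k - 3)) hTt hP1 hPT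
          (fun L hL hPL => hnon L hL (fun hLt => hno L hL hLt hPL))
        have h2 := pts_card T
        rw [hT2] at h2
        have h3 := numeric_two q n k p (pts T).card hq1 hn2 hpk h2
        have h4 := gb_steps (K := K) n k hkn 1 (by omega)
        rw [mul_one, show 2 + 1 = 3 from rfl, ← hq] at h4
        have h5 : (pts T).card * (p * gb q (n - 3) (k - 3))
            ≤ q ^ (n - k) * gb q (n - 3) (k - 3) := by
          rw [← mul_assoc]
          exact Nat.mul_le_mul_right _ h3
        omega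
      -- transversal lines meet
      have hmeet : ∀ L : Submodule K V, (finrank K L = 2 ∧ Transv F L) →
          ∀ L' : Submodule K V, (finrank K L' = 2 ∧ Transv F L') → L ⊓ L' ≠ ⊥ := by
        intro L hL L' hL' h0
        have hmem : ∀ (M A : Submodule K V), Transv F M → M ≤ A → finrank K A = k → A ∈ F := by
          intro M A hM hMA hA
          have h1 : Inter k (insert A F) := by
            refine ⟨?_, ?_⟩
            · intro B hB
              rcases Finset.mem_insert.mp hB with rfl | hB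
              · exact hA
              · exact hFk B hB
            · have h2 : ∀ B ∈ F, B ⊓ A ≠ ⊥ := fun B hB h =>
                hM B hB (le_bot_iff.mp (h ▸ inf_le_inf_left B hMA))
              intro B hB C hC
              rcases Finset.mem_insert.mp hB with hBA | hBF
              · rcases Finset.mem_insert.mp hC with hCA | hCF
                · rw [hBA, hCA, inf_idem]
                  intro hbot
                  rw [hbot, finrank_bot] at hA
                  omega
                · rw [inf_comm, hBA]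
                  exact h2 C hCF
              · rcases Finset.mem_insert.mp hC with hCA | hCF
                · rw [hCA]
                  exact h2 B hBF
                · exact hint B hBF C hCF
          exact hmaxi h1 (Finset.subset_insert A F) (Finset.mem_insert_self A F)
        obtain ⟨A, hLA, hAk, hAL'⟩ := exists_ext (k - 2) L L' h0 (by omega)
        obtain ⟨B, hLB, hBk, hBA⟩ := exists_ext (k - 2) L' A (by rw [inf_comm]; exact hAL')
          (by omega)
        have hA := hmem L A hL.2 hLA (by omega)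
        have hB := hmem L' B hL'.2 hLB (by omega)
        exact hint B hB A hA hBA
      by_cases hstar : ∃ X : Submodule K V, finrank K X = 1 ∧
          ∀ L : Submodule K V, (finrank K L = 2 ∧ Transv F L) → X ≤ L
      · obtain ⟨X, hX, hXL⟩ := hstar
        have hXt := hmin X (by omega)
        unfold Transv at hXt
        push Not at hXt
        obtain ⟨G, hG, hGX⟩ := hXt
        have hXG : ¬ X ≤ G := by
          intro h
          rw [inf_eq_right.mpr h] at hGX
          exact point_ne_bot hX hGX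
        refine ⟨G ⊔ X, by rw [finrank_sup_point G X hX hXG, hFk G hG], fun P hP => ?_⟩
        obtain ⟨hP1, -⟩ := hhigh P hP
        obtain ⟨L, hL, hLt, hPL⟩ := hline P hP
        simp only [pts, Finset.mem_filter, Finset.mem_univ, true_and]
        refine ⟨hP1, hPL.trans ?_⟩
        obtain ⟨Q, hQ, hQl⟩ := exists_pt (G ⊓ L) (hLt G hG)
        have hQX : ¬ Q ≤ X := fun h => hXG (point_eq hQ hX h ▸ hQl.trans inf_le_left)
        have h1 : finrank K (X ⊔ Q : Submodule K V) = 2 := by
          rw [finrank_sup_point X Q hQ hQX, hX]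
        have h2 : X ⊔ Q = L :=
          eq_of_le_of_finrank_eq (sup_le (hXL L ⟨hL, hLt⟩) (hQl.trans inf_le_right)) (by omega)
        rw [← h2]
        exact sup_le le_sup_right ((hQl.trans inf_le_left).trans le_sup_left)
      · obtain ⟨U, hU, hUL⟩ := lines (fun L => finrank K L = 2 ∧ Transv F L) (fun L h => h.1)
          hmeet T ⟨hT2, hTt⟩ hstar
        refine ⟨U, by omega, fun P hP => ?_⟩
        obtain ⟨hP1, -⟩ := hhigh P hP
        obtain ⟨L, hL, hLt, hPL⟩ := hline P hP
        simp only [pts, Finset.mem_filter, Finset.mem_univ, true_and]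
        exact ⟨hP1, hPL.trans (hUL L ⟨hL, hLt⟩)⟩
  · -- `τ ≥ 3`: all high points lie in `T`
    refine ⟨T, by omega, fun P hP => ?_⟩
    obtain ⟨hP1, hPd⟩ := hhigh P hP
    simp only [pts, Finset.mem_filter, Finset.mem_univ, true_and]
    refine ⟨hP1, ?_⟩
    by_contra hPT
    obtain ⟨j, hj⟩ : ∃ j, τ = j + 2 := ⟨τ - 2, by omega⟩
    have h1 := hout T P (p ^ j * gb q (n - τ) (k - τ)) hTt hP1 hPT
      (fun L hL _ => iterate F k τ p hFk (by omega) hτk hpA hmin hint j L (by omega))
    have h2 := pts_card T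
    rw [hT, hj] at h2
    have h3 := numeric_pow q n k j p (pts T).card hq1 hr (by omega) hpk h2
    have h4 := gb_steps (K := K) n k (by omega) j (by omega)
    rw [show 2 + j = τ by omega, ← hq] at h4
    have h5 : (pts T).card * (p ^ j * gb q (n - τ) (k - τ))
        ≤ q ^ ((n - k) * j) * gb q (n - τ) (k - τ) := by
      rw [← mul_assoc]
      exact Nat.mul_le_mul_right _ h3
    omega

/-- Upper bound: at most `[k+1]` high points. -/
lemma high_card (k : ℕ) (F : Finset (Submodule K V)) (hk : 3 ≤ k)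
    (hr : InRange (Nat.card K) (finrank K V) k) (hF : Inter k F) :
    (high k F).card * (Nat.card K - 1) ≤ Nat.card K ^ (k + 1) - 1 := by
  have hq1 : 1 < Nat.card K := Finite.one_lt_card
  obtain ⟨G, hFG, hG⟩ := Finite.exists_le_maximal hF
  have hsub : high k F ⊆ high k G := by
    intro P hP
    simp only [high, Finset.mem_filter, Finset.mem_univ, true_and] at hP ⊢
    refine ⟨hP.1, hP.2.trans_le ?_⟩
    exact Finset.card_le_card (Finset.filter_subset_filter _ hFG)
  rcases G.eq_empty_or_nonempty with hGe | hGne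
  · have : high k G = ∅ := by
      rw [Finset.eq_empty_iff_forall_notMem]
      intro P hP
      simp [high, deg, hGe] at hP
    rw [this] at hsub
    rw [Finset.subset_empty.mp hsub]
    simp
  · obtain ⟨W, hW, hW2⟩ := high_max k G hk hr hG hGne
    have h1 := Finset.card_le_card (hsub.trans hW2)
    calc (high k F).card * (Nat.card K - 1) ≤ (pts W).card * (Nat.card K - 1) :=
          Nat.mul_le_mul_right _ h1
      _ = Nat.card K ^ finrank K W - 1 := pts_card W
      _ ≤ Nat.card K ^ (k + 1) - 1 :=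
          Nat.sub_le_sub_right (Nat.pow_le_pow_right (by omega) hW) 1

/-- extension of `S` inside `W` avoiding `T` -/
lemma exists_ext_in (W : Submodule K V) (m : ℕ) : ∀ (S T : Submodule K V), S ≤ W → T ≤ W →
    S ⊓ T = ⊥ → finrank K S + m + finrank K T ≤ finrank K W →
    ∃ S' : Submodule K V, S ≤ S' ∧ S' ≤ W ∧ finrank K S' = finrank K S + m ∧ S' ⊓ T = ⊥ := by
  induction m with
  | zero => intro S T hS _ h _; exact ⟨S, le_rfl, hS, rfl, h⟩
  | succ m ih =>
    intro S T hSW hTW h hm
    have h1 := Submodule.finrank_sup_add_finrank_inf_eq S T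
    rw [h, finrank_bot] at h1
    have hne : S ⊔ T ≠ W := by
      intro htop
      rw [htop] at h1
      omega
    obtain ⟨v, hvW, hv⟩ := SetLike.exists_of_lt (lt_of_le_of_ne (sup_le hSW hTW) hne)
    have hv0 : v ≠ 0 := by rintro rfl; exact hv (S ⊔ T).zero_mem
    have hvS : ¬ span K {v} ≤ S :=
      fun hh => hv (le_sup_left (a := S) (b := T) ((span_singleton_le_iff_mem v S).mp hh))
    have h2 : finrank K (S ⊔ span K {v} : Submodule K V) = finrank K S + 1 :=
      finrank_sup_point S _ (finrank_span_singleton hv0) hvS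
    have h3 : (S ⊔ span K {v}) ⊓ T = ⊥ := by
      have h4 : finrank K (S ⊔ T ⊔ span K {v} : Submodule K V) = finrank K (S ⊔ T : Submodule K V) + 1 :=
        finrank_sup_point (S ⊔ T) _ (finrank_span_singleton hv0)
          (fun hh => hv ((span_singleton_le_iff_mem v _).mp hh))
      have h5 := Submodule.finrank_sup_add_finrank_inf_eq (S ⊔ span K {v}) T
      have h6 : S ⊔ span K {v} ⊔ T = S ⊔ T ⊔ span K {v} := by
        rw [sup_assoc, sup_comm (span K {v}) T, ← sup_assoc]
      rw [h6] at h5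
      exact Submodule.finrank_eq_zero.mp (by omega)
    obtain ⟨S', h7, h8, h9, h10⟩ := ih (S ⊔ span K {v}) T
      (sup_le hSW ((span_singleton_le_iff_mem v W).mpr hvW)) hTW h3 (by omega)
    exact ⟨S', le_sup_left.trans h7, h8, by omega, h10⟩

lemma inf_ne_bot_of_dim (A B W : Submodule K V) (hA : A ≤ W) (hB : B ≤ W)
    (h : finrank K W < finrank K A + finrank K B) : A ⊓ B ≠ ⊥ := by
  intro h0
  have h1 := Submodule.finrank_sup_add_finrank_inf_eq A B
  rw [h0, finrank_bot] at h1
  have h2 := Submodule.finrank_mono (sup_le hA hB)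
  omega

/-- a point outside -/
lemma inf_point_bot (A P : Submodule K V) (hP : finrank K P = 1) (h : ¬ P ≤ A) : A ⊓ P = ⊥ := by
  have h1 := finrank_sup_point A P hP h
  have h2 := Submodule.finrank_sup_add_finrank_inf_eq A P
  exact Submodule.finrank_eq_zero.mp (by omega)

lemma deg_gt (F : Finset (Submodule K V)) (k : ℕ) (hk : 2 ≤ k) (hkn : k ≤ finrank K V)
    (P S B : Submodule K V) (hS : finrank K S = 2) (hPS : P ≤ S)
    (hSF : ∀ A : Submodule K V, finrank K A = k → S ≤ A → A ∈ F)
    (hB : B ∈ F) (hPB : P ≤ B) (hSB : ¬ S ≤ B) :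
    gb (Nat.card K) (finrank K V - 2) (k - 2) < deg F P := by
  have h1 := above_eq_gb S k (by omega) hkn
  rw [hS] at h1
  rw [← h1]
  have h2 : B ∉ above k S := by
    simp only [above, Finset.mem_filter, Finset.mem_univ, true_and, not_and]
    exact fun _ => hSB
  have h3 : insert B (above k S) ⊆ F.filter (fun A => P ≤ A) := by
    intro A hA
    rcases Finset.mem_insert.mp hA with rfl | hA
    · exact Finset.mem_filter.mpr ⟨hB, hPB⟩
    · simp only [above, Finset.mem_filter, Finset.mem_univ, true_and] at hA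
      exact Finset.mem_filter.mpr ⟨hSF A hA.1 hA.2, hPS.trans hA.2⟩
  have h4 := Finset.card_le_card h3
  rw [Finset.card_insert_of_notMem h2] at h4
  exact h4

/-- Lower bound: the Hilton-Milner family. -/
lemma hm_family (k : ℕ) (hk : 2 ≤ k) (hn : k + 1 ≤ finrank K V) :
    ∃ (F : Finset (Submodule K V)) (W : Submodule K V), Inter k F ∧ finrank K W = k + 1 ∧
      pts W ⊆ high k F := by
  have hnt : (⊤ : Submodule K V) ≠ ⊥ := by
    intro h
    have := finrank_top K V
    rw [h, finrank_bot] at this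
    omega
  obtain ⟨X, hX, -⟩ := exists_pt (⊤ : Submodule K V) hnt
  obtain ⟨Y, -, hY, hYX⟩ := exists_ext k ⊥ X (bot_inf_eq _) (by rw [finrank_bot, hX]; omega)
  rw [finrank_bot, zero_add] at hY
  have hXY : ¬ X ≤ Y := by
    intro h
    rw [inf_eq_right.mpr h] at hYX
    exact point_ne_bot hX hYX
  set W := Y ⊔ X with hWdef
  have hW : finrank K W = k + 1 := by rw [hWdef, finrank_sup_point Y X hX hXY, hY]
  set F : Finset (Submodule K V) := univ.filter (fun A => finrank K A = k ∧
    ((X ≤ A ∧ A ⊓ Y ≠ ⊥) ∨ (¬ X ≤ A ∧ A ≤ W))) with hF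
  have hFmem : ∀ A, A ∈ F ↔ finrank K A = k ∧
      ((X ≤ A ∧ A ⊓ Y ≠ ⊥) ∨ (¬ X ≤ A ∧ A ≤ W)) := by
    intro A
    simp [hF]
  have h12 : ∀ A B : Submodule K V, X ≤ A → A ⊓ Y ≠ ⊥ → finrank K B = k → B ≤ W →
      A ⊓ B ≠ ⊥ := by
    intro A B hXA hAY hB hBW
    obtain ⟨Q, hQ, hQl⟩ := exists_pt _ hAY
    have hQX : ¬ Q ≤ X := fun h => hXY (point_eq hQ hX h ▸ hQl.trans inf_le_right)
    have h1 : finrank K (X ⊔ Q : Submodule K V) = 2 := by
      rw [finrank_sup_point X Q hQ hQX, hX]
    have h2 := inf_ne_bot_of_dim (X ⊔ Q) B W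
      (sup_le le_sup_right ((hQl.trans inf_le_right).trans le_sup_left)) hBW (by omega)
    intro h0
    exact h2 (le_bot_iff.mp (h0 ▸ inf_le_inf_right B (sup_le hXA (hQl.trans inf_le_left))))
  refine ⟨F, W, ⟨fun A hA => ((hFmem A).mp hA).1, ?_⟩, hW, ?_⟩
  · intro A hA B hB
    obtain ⟨hAk, hA1⟩ := (hFmem A).mp hA
    obtain ⟨hBk, hB1⟩ := (hFmem B).mp hB
    rcases hA1 with ⟨hXA, hAY⟩ | ⟨hXA, hAW⟩
    · rcases hB1 with ⟨hXB, hBY⟩ | ⟨hXB, hBW⟩
      · intro h0
        have : X ≤ A ⊓ B := le_inf hXA hXB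
        rw [h0, le_bot_iff] at this
        exact point_ne_bot hX this
      · exact h12 A B hXA hAY hBk hBW
    · rcases hB1 with ⟨hXB, hBY⟩ | ⟨hXB, hBW⟩
      · rw [inf_comm]
        exact h12 B A hXB hBY hAk hAW
      · exact inf_ne_bot_of_dim A B W hAW hBW (by omega)
  · intro P hP
    simp only [pts, Finset.mem_filter, Finset.mem_univ, true_and] at hP
    obtain ⟨hP1, hPW⟩ := hP
    simp only [high, Finset.mem_filter, Finset.mem_univ, true_and]
    refine ⟨hP1, ?_⟩
    by_cases hPX : P = X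
    · subst hPX
      obtain ⟨P0, hP0, hP0Y⟩ := exists_pt Y (by
        intro h0
        rw [h0, finrank_bot] at hY
        omega)
      obtain ⟨P1', -, hP1'Y, hP1', hP01⟩ := exists_ext_in Y 1 ⊥ P0 bot_le hP0Y (bot_inf_eq _)
        (by rw [finrank_bot, hP0]; omega)
      rw [finrank_bot, zero_add] at hP1'
      have hne : ¬ P0 ≤ P ⊔ P1' := by
        intro h
        have hXP1 : ¬ P ≤ P1' := fun h => hXY (h.trans hP1'Y)
        have hP0P1 : ¬ P0 ≤ P1' := by
          intro h
          rw [inf_eq_right.mpr h] at hP01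
          exact point_ne_bot hP0 hP01
        have e1 : finrank K (P1' ⊔ P : Submodule K V) = 2 := by
          rw [finrank_sup_point P1' P hX hXP1, hP1']
        have e2 : finrank K (P1' ⊔ P0 : Submodule K V) = 2 := by
          rw [finrank_sup_point P1' P0 hP0 hP0P1, hP1']
        have e3 : P1' ⊔ P0 = P1' ⊔ P :=
          eq_of_le_of_finrank_eq (sup_le le_sup_left (h.trans (by rw [sup_comm]))) (by omega)
        apply hXY
        have : P ≤ P1' ⊔ P0 := by rw [e3]; exact le_sup_right
        exact this.trans (sup_le hP1'Y hP0Y)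
      have hS1 : finrank K (P ⊔ P1' : Submodule K V) = 2 := by
        rw [finrank_sup_point P P1' hP1' (fun h => hXY (point_eq hP1' hX h ▸ hP1'Y)), hX]
      obtain ⟨B, hSB, hBk, hBP0⟩ := exists_ext (k - 2) (P ⊔ P1') P0
        (inf_point_bot _ _ hP0 hne) (by omega)
      have hXP0 : ¬ P0 ≤ P := fun h => hXY (point_eq hP0 hX h ▸ hP0Y)
      refine deg_gt F k hk (by omega) P (P ⊔ P0) B ?_ le_sup_left ?_ ?_
        (le_sup_left.trans hSB) ?_
      · rw [finrank_sup_point P P0 hP0 hXP0, hX]
      · intro A hA hSA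
        rw [hFmem]
        refine ⟨hA, Or.inl ⟨le_sup_left.trans hSA, ?_⟩⟩
        intro h0
        have : P0 ≤ A ⊓ Y := le_inf (le_sup_right.trans hSA) hP0Y
        rw [h0, le_bot_iff] at this
        exact point_ne_bot hP0 this
      · rw [hFmem]
        refine ⟨by omega, Or.inl ⟨le_sup_left.trans hSB, ?_⟩⟩
        intro h0
        have : P1' ≤ B ⊓ Y := le_inf (le_sup_right.trans hSB) hP1'Y
        rw [h0, le_bot_iff] at this
        exact point_ne_bot hP1' this
      · intro h
        have : P0 ≤ B ⊓ P0 := le_inf (le_sup_right.trans h) le_rfl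
        rw [hBP0, le_bot_iff] at this
        exact point_ne_bot hP0 this
    · have hXP : ¬ X ≤ P := fun h => hPX (point_eq hX hP1 h).symm
      have hS : finrank K (P ⊔ X : Submodule K V) = 2 := by
        rw [finrank_sup_point P X hX hXP, hP1]
      obtain ⟨B, hPB, hBW, hBk, hBX⟩ := exists_ext_in W (k - 1) P X hPW le_sup_right
        (inf_point_bot P X hX hXP) (by omega)
      have hXB : ¬ X ≤ B := by
        intro h
        rw [inf_eq_right.mpr h] at hBX
        exact point_ne_bot hX hBX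
      refine deg_gt F k hk (by omega) P (P ⊔ X) B hS le_sup_left ?_ ?_ hPB
        (fun h => hXB (le_sup_right.trans h))
      · intro A hA hSA
        rw [hFmem]
        refine ⟨hA, Or.inl ⟨le_sup_right.trans hSA, ?_⟩⟩
        have h1 := inf_ne_bot_of_dim (P ⊔ X) Y W (sup_le hPW le_sup_right) le_sup_left
          (by omega)
        intro h0
        exact h1 (le_bot_iff.mp (h0 ▸ inf_le_inf_right Y hSA))
      · rw [hFmem]
        exact ⟨by omega, Or.inr ⟨hXB, hBW⟩⟩

/-- The number `[m] = (q^m - 1)/(q - 1)` of points of an `m`-dimensional space. -/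
def br (q m : ℕ) : ℕ := (q ^ m - 1) / (q - 1)

lemma br_mul (q m : ℕ) : br q m * (q - 1) = q ^ m - 1 :=
  Nat.div_mul_cancel (by simpa using Nat.sub_dvd_pow_sub_pow q 1 m)

/-- The maximal number of high points is `[k+1]`. -/
lemma greatest (k : ℕ) (hk : 3 ≤ k) (hr : InRange (Nat.card K) (finrank K V) k) :
    IsGreatest {m : ℕ | ∃ F : Finset (Submodule K V), Inter k F ∧ m = (high k F).card}
      (br (Nat.card K) (k + 1)) := by
  have hq1 : 1 < Nat.card K := Finite.one_lt_card
  have hup : ∀ F : Finset (Submodule K V), Inter k F →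
      (high k F).card ≤ br (Nat.card K) (k + 1) := by
    intro F hF
    have h1 := high_card k F hk hr hF
    rw [← br_mul] at h1
    exact Nat.le_of_mul_le_mul_right h1 (by omega)
  have hle := hr.le
  obtain ⟨F, W, hF, hW, hWF⟩ := hm_family (K := K) (V := V) k (by omega) (by omega)
  have h2 : (pts W).card = br (Nat.card K) (k + 1) := by
    have h3 := pts_card W
    rw [hW, ← br_mul] at h3
    exact Nat.eq_of_mul_eq_mul_right (by omega) h3
  refine ⟨⟨F, hF, le_antisymm ?_ (hup F hF)⟩, ?_⟩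
  · rw [← h2]
    exact Finset.card_le_card hWF
  · rintro m ⟨G, hG, rfl⟩
    exact hup G hG

end
end Pool.Agent.H99.SubDeg
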