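import Pool.Agent.H99.SubHigh

set_option autoImplicit false

open Module Submodule Finset

namespace Pool.Agent.H99.SubDeg

section
variable {K : Type} [Field K] [Finite K]

lemma gb_ident (a b : ℕ) (hb : b ≤ a) :
    gb (Nat.card K) a b * ∏ j ∈ range b, (Nat.card K ^ (b - j) - 1)
      = ∏ j ∈ range b, (Nat.card K ^ (a - j) - 1) := by
  have hV : finrank K (Fin a → K) = a := by simp
  have h1 := cnt_mul (K := K) b (Fin a → K) (by omega)
  have h2 := cnt_eq_gb (K := K) (Fin a → K) b (by omega)
  rw [hV] at h1 h2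
  rw [← h2]
  exact h1

lemma gb_ratio (a b : ℕ) (hb : b + 1 ≤ a) :
    gb (Nat.card K) a (b + 1) * (Nat.card K ^ (b + 1) - 1)
      = gb (Nat.card K) a b * (Nat.card K ^ (a - b) - 1) := by
  have hq : 1 < Nat.card K := Finite.one_lt_card
  have h1 := gb_ident (K := K) a (b + 1) hb
  have h0 := gb_ident (K := K) a b (by omega)
  rw [Finset.prod_range_succ' (fun j => Nat.card K ^ (b + 1 - j) - 1),
    Finset.prod_range_succ (fun j => Nat.card K ^ (a - j) - 1), ← h0] at h1
  have e1 : ∏ j ∈ range b, (Nat.card K ^ (b + 1 - (j + 1)) - 1)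
      = ∏ j ∈ range b, (Nat.card K ^ (b - j) - 1) :=
    Finset.prod_congr rfl fun j _ => by rw [show b + 1 - (j + 1) = b - j by omega]
  rw [e1, Nat.sub_zero] at h1
  have hpos := prod_pos' hq b
  refine Nat.eq_of_mul_eq_mul_right hpos ?_
  calc gb (Nat.card K) a (b + 1) * (Nat.card K ^ (b + 1) - 1)
        * ∏ j ∈ range b, (Nat.card K ^ (b - j) - 1)
      = gb (Nat.card K) a (b + 1) * ((∏ j ∈ range b, (Nat.card K ^ (b - j) - 1))
        * (Nat.card K ^ (b + 1) - 1)) := by ring
    _ = _ := h1
    _ = _ := by ring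

lemma gb_pos (a b : ℕ) (hb : b ≤ a) : 0 < gb (Nat.card K) a b := by
  have hq : 1 < Nat.card K := Finite.one_lt_card
  have h := gb_ident (K := K) a b hb
  have h2 : 0 < ∏ j ∈ range b, (Nat.card K ^ (a - j) - 1) := by
    refine Finset.prod_pos fun j hj => ?_
    have hj' := Finset.mem_range.mp hj
    have : 1 < Nat.card K ^ (a - j) := Nat.one_lt_pow (by omega) hq
    omega
  rw [← h] at h2
  exact Nat.pos_of_mul_pos_right h2

lemma gb_lt (k : ℕ) (hk : 2 ≤ k) :
    gb (Nat.card K) (2 * k - 2) (k - 2) < gb (Nat.card K) (2 * k - 2) (k - 1) := by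
  have hq : 1 < Nat.card K := Finite.one_lt_card
  have h := gb_ratio (K := K) (2 * k - 2) (k - 2) (by omega)
  rw [show k - 2 + 1 = k - 1 by omega, show 2 * k - 2 - (k - 2) = k by omega] at h
  have hp := gb_pos (K := K) (2 * k - 2) (k - 2) (by omega)
  have h1 : Nat.card K ^ (k - 1) < Nat.card K ^ k := Nat.pow_lt_pow_right hq (by omega)
  have h2 : 1 ≤ Nat.card K ^ (k - 1) := Nat.one_le_pow _ _ (by omega)
  by_contra hcon
  push Not at hcon
  have h3 := Nat.mul_le_mul_right (Nat.card K ^ (k - 1) - 1) hcon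
  rw [h] at h3
  have h4 : Nat.card K ^ k - 1 ≤ Nat.card K ^ (k - 1) - 1 := Nat.le_of_mul_le_mul_left h3 hp
  omega

end

set_option linter.unusedSectionVars false

open scoped Classical in
section
variable {K : Type} [Field K] [Finite K] {V : Type} [AddCommGroup V] [Module K V] [Finite V]

/-- all `k`-subspaces of a hyperplane when `n = 2k` -/
lemma hyper_family (k : ℕ) (hk : 3 ≤ k) (hn : finrank K V = 2 * k) :
    ∃ F : Finset (Submodule K V), Inter k F ∧
      Nat.card K ^ (2 * k - 1) - 1 ≤ (high k F).card * (Nat.card K - 1) := by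
  obtain ⟨H, -, -, hH⟩ := exists_between' (2 * k - 1) (⊥ : Submodule K V) ⊤ bot_le
    (by rw [finrank_bot, finrank_top]; omega)
  rw [finrank_bot, zero_add] at hH
  set F : Finset (Submodule K V) := univ.filter (fun A => finrank K A = k ∧ A ≤ H) with hF
  have hFmem : ∀ A, A ∈ F ↔ finrank K A = k ∧ A ≤ H := by intro A; simp [hF]
  refine ⟨F, ⟨fun A hA => ((hFmem A).mp hA).1, ?_⟩, ?_⟩
  · intro A hA B hB
    obtain ⟨h1, h2⟩ := (hFmem A).mp hA
    obtain ⟨h3, h4⟩ := (hFmem B).mp hB
    exact inf_ne_bot_of_dim A B H h2 h4 (by omega)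
  · have hsub : pts H ⊆ high k F := by
      intro P hP
      simp only [pts, Finset.mem_filter, Finset.mem_univ, true_and] at hP
      simp only [high, Finset.mem_filter, Finset.mem_univ, true_and]
      refine ⟨hP.1, ?_⟩
      have hP' : finrank K (P.comap H.subtype) = 1 := by
        rw [← finrank_map_subtype_eq H (P.comap H.subtype), map_comap_subtype,
          inf_eq_right.mpr hP.2, hP.1]
      have h1 := above_eq_gb (P.comap H.subtype) k (by omega) (by omega)
      rw [hP', hH, show 2 * k - 1 - 1 = 2 * k - 2 by omega] at h1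
      have h2 : (above k (P.comap H.subtype)).card ≤ deg F P := by
        refine Finset.card_le_card_of_injOn (fun A => A.map H.subtype) ?_ ?_
        · intro A hA
          simp only [above, Finset.coe_filter, Finset.mem_univ, true_and, Set.mem_ofPred_eq] at hA
          rw [Finset.mem_coe, Finset.mem_filter, hFmem]
          refine ⟨⟨by rw [finrank_map_subtype_eq]; exact hA.1, map_subtype_le H A⟩, ?_⟩
          have := map_mono (f := H.subtype) hA.2
          rwa [map_comap_subtype, inf_eq_right.mpr hP.2] at this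
        · intro A _ B _ hAB
          exact map_injective_of_injective (injective_subtype H) hAB
      rw [hn]
      exact lt_of_lt_of_le (gb_lt (K := K) k (by omega)) (h1 ▸ h2)
    have h1 := Nat.mul_le_mul_right (Nat.card K - 1) (Finset.card_le_card hsub)
    rw [pts_card, hH] at h1
    exact h1

end
end Pool.Agent.H99.SubDeg
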